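import Pool.Agent.MP_f8e15f_co.H33.Spec2

/-!
Assembly of the classification of nets.
-/

open MulAction Pointwise

namespace Pool.Agent.MP_f8e15f_co.H33

theorem ab_sup {G : Type} [Group G] {A B : Subgroup G} [A.Normal] (hA : Ab A) (hB : Ab B)
    (h : ∀ b ∈ B, ∀ a ∈ A, a * b = b * a) : Ab (B ⊔ A) := by
  intro x hx y hy
  have hx' : x ∈ ((B ⊔ A : Subgroup G) : Set G) := hx
  have hy' : y ∈ ((B ⊔ A : Subgroup G) : Set G) := hy
  rw [Subgroup.mul_normal] at hx' hy'
  obtain ⟨b, hb, a, ha, rfl⟩ := hx'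
  obtain ⟨b', hb', a', ha', rfl⟩ := hy'
  have c1 : Commute b b' := hB b hb b' hb'
  have c2 : Commute b a' := (h b hb a' ha').symm
  have c3 : Commute a b' := h b' hb' a ha
  have c4 : Commute a a' := hA a ha a' ha'
  exact (c1.mul_right c2).mul_left (c3.mul_right c4)

theorem netMain : OfNET := by
  intro sol qp str sym n0 nimp na1 na2 na3 nb0 nbn nb2 G V _ _ _ _ _ _ 𝓜 h
  obtain ⟨p, e, f⟩ := n0 G V 𝓜 h
  by_cases hs : Split G V
  · exact Or.inr (nimp G V 𝓜 h p e f hs)
  obtain ⟨L, hL, L', hL', hLL⟩ := h.ex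
  have : Nontrivial V := by
    obtain ⟨v, _, hv⟩ := (AddSubgroup.bot_or_exists_ne_zero L).resolve_left (f.ne L hL)
    exact ⟨v, 0, hv⟩
  obtain ⟨Φ, _, _, _, A, s⟩ := str.ex G V h.faith fun B hB hab =>
    ((qp G V h.irr B hB fun x hx y hy v => by rw [← mul_smul, hab x hx y hy, mul_smul]).2
      f.tr2).resolve_right hs
  have sf := str.facts G V Φ A s
  have nA := s.norm
  have nK := f.kn
  have nC := sf.cn
  by_cases hC : Subgroup.centralizer (A : Set G) ≤ A
  · exact Or.inl (sf.one (sf.small f.tr2 hC))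
  right
  have viaK : ∀ E t, Sym A E t → ¬ Ab (E ⊓ Kn G 𝓜) → Slp 𝓜 := by
    intro E t sy hn
    have nE := sy.norm
    have cz : ∀ a ∈ A, ∀ z ∈ E, a * z = z * a := fun a ha z hz => sy.cent hz a ha
    have ks : KS (Kn G 𝓜) (E ⊓ Kn G 𝓜) t :=
      ⟨sy.prime, inferInstance, inf_le_right,
        fun x hx y hy z hz => cz _ (sy.comm x hx.1 y hy.1) z hz.1,
        fun x hx z hz => cz _ (sy.pow x hx.1) z hz.1, hn, fun B hB hle hab b hb z hz =>
          cz b (s.max (B ⊔ A) inferInstance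
            (ab_sup sf.ab hab fun b hb a ha => cz a ha b (hle hb).1) le_sup_right
            (Subgroup.mem_sup_left hb)) z hz.1⟩
    have fl := na1 G V 𝓜 h p e f _ t ks
    refine na3 G V 𝓜 h p e f _ t ks fl (na2 G V 𝓜 h p e f _ t ks ?_)
    obtain ⟨U, Ψ, _, _, _, _, _, _, _, _, _, _, _, _, hd, hr, _⟩ := fl
    have h2 : 1 < Nat.card Ψ := Finite.one_lt_card
    have := Nat.le_of_dvd (by omega) hd
    omega
  have nab : ∀ E t, Sym A E t → ¬ Ab E := fun E t sy hab =>
    sy.lt.not_ge (s.max E sy.norm hab sy.lt.le)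
  by_cases hAK : A ≤ Kn G 𝓜
  · by_cases hK : Kn G 𝓜 ⊓ Subgroup.centralizer (A : Set G) ≤ A
    · obtain ⟨t, E, ht, hE, h1, h2, h3, h4⟩ :=
        sol G A _ nA nC (lt_of_le_not_ge sf.le hC)
      have sy : Sym A E t := ⟨ht, hE, h1, h2, h3, h4⟩
      have yf := sym G V Φ A E t s sf sy
      obtain ⟨hr, ho⟩ := nb0 G V 𝓜 h p e f Φ A E t s sf sy yf hAK hK
      let W : Submodule Φ V :=
        { L with smul_mem' := fun c x hx =>
            sf.sub L (fun a ha x hx => (f.mem a).1 (hAK ha) L hL x hx) c x hx }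
      have hW : p ^ e = Nat.card Φ ^ Module.finrank Φ W := by
        rw [← f.cL L hL, ← Module.natCard_eq_pow_finrank]
        rfl
      have h2 : 1 < Nat.card Φ := Finite.one_lt_card
      obtain ⟨φ, hφ⟩ : ∃ φ, Nat.card Φ = p ^ φ := by
        have hw : Module.finrank Φ W ≠ 0 := fun h0 => by
          rw [h0, pow_zero] at hW
          have := Nat.one_lt_pow (by have := f.pos; omega : e ≠ 0) f.prime.one_lt
          omega
        obtain ⟨i, _, hi⟩ := (Nat.dvd_prime_pow f.prime).1 (hW ▸ dvd_pow_self _ hw)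
        exact ⟨i, hi⟩
      have hfr : Module.finrank Φ V = 2 * Module.finrank Φ W := by
        have := sf.size
        rw [f.cV, hW, ← pow_mul] at this
        have := Nat.pow_right_injective h2 this
        omega
      have hKc : Nat.card (Kn G 𝓜) ∣ φ * (p ^ φ - 1) := by
        have e1 : Kn G 𝓜 ⊓ Subgroup.centralizer (A : Set G) = A :=
          le_antisymm hK (le_inf hAK sf.le)
        have e2 := Subgroup.card_mul_index
          ((Subgroup.centralizer (A : Set G)).subgroupOf (Kn G 𝓜))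
        rw [← e2, mul_comm]
        refine mul_dvd_mul ((Subgroup.relIndex_dvd_index_of_normal _ _).trans
          (sf.idx p φ f.prime hφ)) ?_
        rw [← Subgroup.inf_subgroupOf_right, inf_comm, e1,
          Nat.card_congr (Subgroup.subgroupOfEquivOfLe hAK).toEquiv, ← hφ]
        exact sf.card
      have hφ1 : 1 ≤ φ := Nat.pos_of_ne_zero fun h0 => by
        rw [h0, pow_zero] at hφ
        omega
      have hδ : 1 ≤ Module.finrank Φ W := Nat.pos_of_ne_zero fun h0 => by
        rw [h0, pow_zero] at hW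
        have := Nat.one_lt_pow (by have := f.pos; omega : e ≠ 0) f.prime.one_lt
        omega
      rw [hφ] at hW
      obtain ⟨r4, d1, hl⟩ := nbn p φ t (Module.finrank Φ W) 𝓜.ncard (Kn G 𝓜).index (Nat.card G)
        f.prime ht hφ1 hδ (hφ ▸ yf.dvd) (by rw [hr, ← hfr]; exact yf.ind) (hW ▸ f.le)
        (by rw [← (Kn G 𝓜).index_mul_card]; exact mul_dvd_mul_left _ hKc) (hW ▸ f.d1)
        (hW ▸ f.d2) ho
      rw [d1, pow_one] at hW
      exact nb2 G V 𝓜 h p e f Φ A s sf hAK hK r4 (hφ.trans hW.symm) (hW ▸ hl)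
    · obtain ⟨t, E, ht, hE, h1, h2, h3, h4⟩ :=
        sol G A _ nA inferInstance (lt_of_le_not_ge (le_inf hAK sf.le) hK)
      have sy : Sym A E t := ⟨ht, hE, h1, h2.trans inf_le_right, h3, h4⟩
      refine viaK E t sy ?_
      rw [inf_eq_left.2 (h2.trans inf_le_left)]
      exact nab E t sy
  · obtain ⟨t, E, ht, hE, h1, h2, h3, h4⟩ := sol G A _ nA nC (lt_of_le_not_ge sf.le hC)
    have sy : Sym A E t := ⟨ht, hE, h1, h2, h3, h4⟩
    refine viaK E t sy fun hab => nab E t sy ?_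
    have hE' : E ≤ (E ⊓ Kn G 𝓜) ⊔ A := fun x hx => by
      obtain ⟨a, ha, hxa⟩ := f.ntr A nA hAK L hL (x • L) (h.perm x L hL)
      have hk : a⁻¹ * x ∈ Kn G 𝓜 := by
        simp only [Kn, Subgroup.mem_iInf, mem_stabilizer_iff]
        intro M hM
        obtain ⟨b, hb, rfl⟩ := f.ntr A nA hAK L hL M hM
        have c : b * (a⁻¹ * x) = a⁻¹ * x * b := h2 (E.mul_mem (E.inv_mem (h1.le ha)) hx) b hb
        rw [← mul_smul, ← c, mul_smul, mul_smul, ← hxa, inv_smul_smul]
      have : x = a * (a⁻¹ * x) := by group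
      rw [this]
      exact Subgroup.mul_mem _ (Subgroup.mem_sup_right ha)
        (Subgroup.mem_sup_left ⟨E.mul_mem (E.inv_mem (h1.le ha)) hx, hk⟩)
    have := ab_sup sf.ab hab fun b hb a ha => h2 hb.1 a ha
    exact fun x hx y hy => this x (hE' hx) y (hE' hy)

end Pool.Agent.MP_f8e15f_co.H33
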