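import Pool.Agent.MP_f8e15f_co.H33.Wire
import Pool.Agent.MP_f8e15f_co.H33.Net
import Pool.Agent.MP_f8e15f_co.H33R.AFF
import Pool.Agent.MP_f8e15f_co.H33R.TWO
import Pool.Agent.MP_f8e15f_co.H33R.ABS
import Pool.Agent.MP_f8e15f_co.H33R.DES
import Pool.Agent.MP_f8e15f_co.H33R.ZS
import Pool.Agent.MP_f8e15f_co.H33R.T3
import Pool.Agent.MP_f8e15f_co.H33R.EXP
import Pool.Agent.MP_f8e15f_co.H33R.SYMP
import Pool.Agent.MP_f8e15f_co.H33R.QP
import Pool.Agent.MP_f8e15f_co.H33R.STRE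
import Pool.Agent.MP_f8e15f_co.H33R.STRF
import Pool.Agent.MP_f8e15f_co.H33R.SYM
import Pool.Agent.MP_f8e15f_co.H33R.ORD
import Pool.Agent.MP_f8e15f_co.H33R.COV
import Pool.Agent.MP_f8e15f_co.H33R.HUPF
import Pool.Agent.MP_f8e15f_co.H33R.HUPB
import Pool.Agent.MP_f8e15f_co.H33R.HUP
import Pool.Agent.MP_f8e15f_co.H33R.CRD
import Pool.Agent.MP_f8e15f_co.H33R.N0
import Pool.Agent.MP_f8e15f_co.H33R.NIMP
import Pool.Agent.MP_f8e15f_co.H33R.NA1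
import Pool.Agent.MP_f8e15f_co.H33R.NA2
import Pool.Agent.MP_f8e15f_co.H33R.NA3
import Pool.Agent.MP_f8e15f_co.H33R.NB0
import Pool.Agent.MP_f8e15f_co.H33R.NBN
import Pool.Agent.MP_f8e15f_co.H33R.NB2
import Pool.Agent.MP_f8e15f_co.H33R.TR1
import Pool.Agent.MP_f8e15f_co.H33R.TR2
import Pool.Agent.MP_f8e15f_co.H33R.CVT
import Pool.Agent.MP_f8e15f_co.H33R.H24A
import Pool.Agent.MP_f8e15f_co.H33R.B0
import Pool.Agent.MP_f8e15f_co.H33R.IRR
import Pool.Agent.MP_f8e15f_co.H33R.B4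
import Pool.Agent.MP_f8e15f_co.H33R.B5A
import Pool.Agent.MP_f8e15f_co.H33R.B5B
import Pool.Agent.MP_f8e15f_co.H33R.NUC
import Pool.Agent.MP_f8e15f_co.H33R.B3
import Pool.Agent.MP_f8e15f_co.H33R.B2T
import Pool.Agent.MP_f8e15f_co.H33R.B2A
import Pool.Agent.MP_f8e15f_co.H33R.B2S
import Pool.Agent.MP_f8e15f_co.H33R.B2B
import Pool.Agent.MP_f8e15f_co.H33R.B2C
import Pool.Agent.MP_f8e15f_co.H33R.BLK
import Pool.Agent.MP_f8e15f_co.H33R.TRB
import Pool.Agent.MP_f8e15f_co.H33R.STD0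
import Pool.Agent.MP_f8e15f_co.H33R.STD1
import Pool.Agent.MP_f8e15f_co.H33R.STD3
import Pool.Agent.MP_f8e15f_co.H33R.CVP
import Pool.Agent.MP_f8e15f_co.H33R.CVN
import Pool.Agent.MP_f8e15f_co.H33R.CVS1
import Pool.Agent.MP_f8e15f_co.H33R.CVS2
import Pool.Agent.MP_f8e15f_co.H33R.CVH
import Pool.Agent.MP_f8e15f_co.H33R.CVB
import Pool.Agent.MP_f8e15f_co.H33R.CVF

namespace Pool.Agent.MP_f8e15f_co.H33

theorem hSOL : SOL := RAFF.row.1
theorem hCRDN : CRDN := RAFF.row.2.1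
theorem hTWO : TWO := (RTWO.row hSOL).1
theorem hSTR : STR := ⟨RSTRE.row, RSTRF.row REXP.row⟩
theorem hHUP : HUP :=
  RHUP.row hCRDN hTWO (RHUPF.row hSOL RQP.row hSTR RSYM.row RORD.row RCOV.row) (RHUPB.row REXP.row)
theorem hBLK : BLK := (RBLK.row (RTWO.row hSOL).2).1

theorem hNET : NET :=
  netMain hSOL RQP.row hSTR RSYM.row (RN0.row hTWO hHUP) (RNIMP.row REXP.row hHUP RCRD.row)
    (RNA1.row RCRD.row) (RNA2.row REXP.row hHUP) (RNA3.row REXP.row)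
    (RNB0.row hCRDN REXP.row (RSYMP.row REXP.row) hHUP) RNBN.row (RNB2.row REXP.row RCRD.row)

theorem hBIL : BIL :=
  bilMain RZS.row hHUP (RB0.row hHUP) (RIRR.row REXP.row) (RB4.row hHUP) (RB5A.row REXP.row hHUP)
    (RB5B.row REXP.row) (RNUC.row REXP.row).1 (RNUC.row REXP.row).2 RB3.row (RB2T.row REXP.row).1
    (RB2A.row REXP.row) (RB2S.row REXP.row hHUP) (RB2B.row REXP.row hHUP RT3.row.1 RT3.row.2)
    (RB2C.row REXP.row RT3.row.1)

theorem main (V : Type) [Finite V] [Nonempty V] (D : Set (Set V)) :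
    Sol D ↔ ∃ (P : Type) (E : Set (Set P)), Listed P E ∧ (Iso D E ∨ Iso D (dual E)) :=
  have t2 := RTR2.row hTWO hHUP REXP.row
  have cvn := RCVN.row REXP.row RCVT.row
  final RDES.row (RABS.row hTWO).1 (RABS.row hTWO).2
    (coreMain RDES.row hBLK RSTD0.row (RSTD1.row hSOL hHUP hBLK) (RSTD3.row hSOL hTWO) hBIL
      (RB2T.row REXP.row).2
      (primMain RDES.row RAFF.row.2.2 hBLK (RBLK.row (RTWO.row hSOL).2).2 (RTRB.row hCRDN)
        (trMain (RTR1.row hTWO hHUP) t2.1 t2.2.1 t2.2.2 (RH24A.row RDES.row RCVT.row) hNET)))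
    (fun _ _ h => listed (RCVP.row RDES.row) (RCVS1.row REXP.row cvn) (RCVS2.row REXP.row cvn)
      RCVH.row (RCVF.row REXP.row (RCVB.row REXP.row RDES.row)) h) V D

end Pool.Agent.MP_f8e15f_co.H33
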