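import Pool.Agent.MP_f8e15f_co.H33.St

/-!
Specification of the intermediate statements of the soluble classification.  Every row proves one
statement `Of...`.  Part 1: incidence structures, groups, number theory, linear groups.
-/

open MulAction Pointwise

namespace Pool.Agent.MP_f8e15f_co.H33

open Pool.Agent.MP_f8e15f_co.H24

/-! ## 1. Designs and incidence structures -/

/-- The left side of the theorem. -/
def Sol {V : Type} (D : Set (Set V)) : Prop :=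
  ∃ k r : ℕ, 1 ≤ k ∧ 1 ≤ r ∧ IsOneDesign D k r ∧
    ∃ G : Subgroup (Equiv.Perm V), Group.IsSolvable G ∧ PairwiseTransitive G D

def Mod {V : Type} (D : Set (Set V)) : Prop := ∃ (P : Type) (E : Set (Set P)), Listed P E ∧ Iso D E

/-- The set design of an incidence relation. -/
def des {P B : Type} (I : P → B → Prop) : Set (Set P) := {S | ∃ b, S = {p | I p b}}

def Col {P B : Type} (I : P → B → Prop) (p q : P) : Prop := ∃ b, I p b ∧ I q b

structure PT (G : Type) {P B : Type} [Group G] [MulAction G P] [MulAction G B]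
    (I : P → B → Prop) : Prop where
  inv : ∀ (g : G) p b, I (g • p) (g • b) ↔ I p b
  col : ∀ p q p' q', p ≠ q → p' ≠ q' → Col I p q → Col I p' q' → ∃ g : G, g • p = p' ∧ g • q = q'
  non : ∀ p q p' q', p ≠ q → p' ≠ q' → ¬ Col I p q → ¬ Col I p' q' →
    ∃ g : G, g • p = p' ∧ g • q = q'
  flag : ∀ p b p' b', I p b → I p' b' → ∃ g : G, g • p = p' ∧ g • b = b'
  anti : ∀ p b p' b', ¬ I p b → ¬ I p' b' → ∃ g : G, g • p = p' ∧ g • b = b'
  met : ∀ b c b' c', b ≠ c → b' ≠ c' → Col (flip I) b c → Col (flip I) b' c' →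
    ∃ g : G, g • b = b' ∧ g • c = c'
  dis : ∀ b c b' c', b ≠ c → b' ≠ c' → ¬ Col (flip I) b c → ¬ Col (flip I) b' c' →
    ∃ g : G, g • b = b' ∧ g • c = c'

theorem PT.flip {G P B : Type} [Group G] [MulAction G P] [MulAction G B] {I : P → B → Prop}
    (h : PT G I) : PT G (flip I) :=
  ⟨fun g b p => h.inv g p b, h.met, h.dis,
    fun b p b' p' x y => (h.flag p b p' b' x y).imp fun _ => And.symm,
    fun b p b' p' x y => (h.anti p b p' b' x y).imp fun _ => And.symm, h.col, h.non⟩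

/-- The non-degenerate case. -/
structure Core (G : Type) {P B : Type} [Group G] [MulAction G P] [MulAction G B]
    (I : P → B → Prop) : Prop where
  pt : PT G I
  fP : ∀ g : G, (∀ p : P, g • p = p) → g = 1
  fB : ∀ g : G, (∀ b : B, g • b = b) → g = 1
  eP : ∀ p q, (∀ b, I p b ↔ I q b) → p = q
  eB : ∀ b c, (∀ p, I p b ↔ I p c) → b = c
  tP : ∀ p, ∃ b c, b ≠ c ∧ I p b ∧ I p c
  tB : ∀ b, ∃ p q, p ≠ q ∧ I p b ∧ I q b
  nP : Nonempty P
  nB : Nonempty B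

theorem Core.flip {G P B : Type} [Group G] [MulAction G P] [MulAction G B] {I : P → B → Prop}
    (h : Core G I) : Core G (flip I) :=
  ⟨h.pt.flip, h.fB, h.fP, h.eB, h.eP, h.tB, h.tP, h.nB, h.nP⟩

def ABS : Prop := ∀ (V : Type) [Finite V] [Nonempty V] (D : Set (Set V)) (k r : ℕ)
  (G : Subgroup (Equiv.Perm V)), 1 ≤ k → 2 ≤ r → IsOneDesign D k r → PairwiseTransitive G D →
  ∃ _ : MulAction G D, Core G fun (p : V) (b : D) => p ∈ b.1

def PART : Prop := ∀ (V : Type) [Finite V] [Nonempty V] (D : Set (Set V)) (k : ℕ)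
  (G : Subgroup (Equiv.Perm V)), 1 ≤ k → IsOneDesign D k 1 → Group.IsSolvable G →
  PairwiseTransitive G D → Mod D

structure DES : Prop where
  sol : ∀ (G P B : Type) [Group G] [Group.IsSolvable G] [MulAction G P] [MulAction G B] [Finite P]
    [Nonempty P] (I : P → B → Prop), PT G I → (∀ p, ∃ b, I p b) → (∀ b, ∃ p, I p b) → Sol (des I)
  dual : ∀ (V : Type) [Finite V] [Nonempty V] (D : Set (Set V)), Sol D → Sol (dual D)
  iso : ∀ (V P : Type) (D : Set (Set V)) (E : Set (Set P)), Iso D E → Sol E → Sol D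
  trans : ∀ (V P Q : Type) (D : Set (Set V)) (E : Set (Set P)) (E' : Set (Set Q)), Iso D E →
    Iso E E' → Iso D E'
  symm : ∀ (V P : Type) (D : Set (Set V)) (E : Set (Set P)), Iso D E → Iso E D
  bidual : ∀ (V P : Type) (D : Set (Set V)) (E : Set (Set P)),
    (∀ p q : V, (∀ B ∈ D, p ∈ B ↔ q ∈ B) → p = q) → Iso (H33.dual D) E → Iso D (H33.dual E)
  mem : ∀ (V : Type) (D : Set (Set V)), des (fun (p : V) (b : D) => p ∈ b.1) = D
  mem' : ∀ (V : Type) (D : Set (Set V)),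
    des (flip fun (p : V) (b : D) => p ∈ b.1) = H33.dual D
  of : ∀ (P B P' B' : Type) (I : P → B → Prop) (I' : P' → B' → Prop) (e : P ≃ P') (f : B ≃ B'),
    (∀ p b, I' (e p) (f b) ↔ I p b) → Iso (des I) (des I')

/-! ## 2. Soluble permutation groups -/

def Two (G Ω : Type) [SMul G Ω] : Prop :=
  ∀ a b a' b' : Ω, a ≠ b → a' ≠ b' → ∃ g : G, g • a = a' ∧ g • b = b'

def Ab {G : Type} [Group G] (B : Subgroup G) : Prop := ∀ x ∈ B, ∀ y ∈ B, x * y = y * x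

/-- The order of the induced permutation group. -/
noncomputable def kidx (G Ω : Type) [Group G] [MulAction G Ω] : ℕ := (toPermHom G Ω).ker.index

def SOL : Prop := ∀ (G : Type) [Group G] [Finite G] [Group.IsSolvable G] (A C : Subgroup G),
  A.Normal → C.Normal → A < C → ∃ (t : ℕ) (E : Subgroup G), t.Prime ∧ E.Normal ∧ A < E ∧ E ≤ C ∧
    (∀ x ∈ E, ∀ y ∈ E, x * y * x⁻¹ * y⁻¹ ∈ A) ∧ ∀ x ∈ E, x ^ t ∈ A

def CRDN : Prop := ∀ (G Ω : Type) [Group G] [MulAction G Ω] (N : Subgroup G) (ω : Ω), N.Normal →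
  (∀ x y : Ω, ∃ n ∈ N, n • x = y) → (∀ n ∈ N, ∀ m ∈ N, ∀ x : Ω, n • m • x = m • n • x) →
  ∃ (V : Type) (_ : AddCommGroup V) (_ : DistribMulAction (stabilizer G ω) V) (e : V ≃ Ω),
    e 0 = ω ∧ (∀ (g : stabilizer G ω) v, e (g • v) = g.1 • e v) ∧
    (∀ v, ∃ n ∈ N, ∀ w, n • e w = e (w + v)) ∧ ∀ n ∈ N, ∃ v, ∀ w, n • e w = e (w + v)

def AFF : Prop := ∀ (G Ω : Type) [Group G] [Finite G] [Group.IsSolvable G] [MulAction G Ω]
  [Finite Ω] [Nontrivial Ω], IsPreprimitive G Ω → (∀ g : G, (∀ x : Ω, g • x = x) → g = 1) →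
  IsPrimePow (Nat.card Ω) ∧ ∃ N : Subgroup G, N.Normal ∧ N ≠ ⊥ ∧ Ab N ∧
    ∀ x y : Ω, ∃ n ∈ N, n • x = y

def FIX : Prop := ∀ (G Ω : Type) [Group G] [Finite G] [Group.IsSolvable G] [MulAction G Ω]
  [Finite Ω] [Nontrivial Ω], IsPreprimitive G Ω → (∀ g : G, (∀ x : Ω, g • x = x) → g = 1) →
  ∀ N H : Subgroup G, N.Normal → N ≠ ⊥ → Ab N → H ⊓ N = ⊥ → (∀ g, ∃ n ∈ N, n * g ∈ H) →
  ∃ ω : Ω, ∀ h ∈ H, h • ω = ω

structure TwoF (G Ω : Type) [Group G] [MulAction G Ω] : Prop where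
  pp : IsPrimePow (Nat.card Ω)
  tr : ∀ x y : Ω, ∃ g : G, g • x = y
  ntr : ∀ M : Subgroup G, M.Normal → (∃ m ∈ M, ∃ x : Ω, m • x ≠ x) → ∀ x y : Ω, ∃ m ∈ M, m • x = y
  max : ∀ (ω : Ω) (H : Subgroup G), stabilizer G ω ≤ H → H = stabilizer G ω ∨ H = ⊤
  aff : ∃ N : Subgroup G, N.Normal ∧ (∀ x y : Ω, ∃ n ∈ N, n • x = y) ∧
    (∀ n ∈ N, ∀ m ∈ N, ∀ x : Ω, n • m • x = m • n • x) ∧
    ∃ t j : ℕ, t.Prime ∧ Nat.card Ω = t ^ j ∧ ∀ n ∈ N, ∀ x : Ω, n ^ t • x = x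
  dvd : Nat.card Ω * (Nat.card Ω - 1) ∣ kidx G Ω
  fac : kidx G Ω ∣ (Nat.card Ω).factorial

def TWO : Prop := ∀ (G Ω : Type) [Group G] [Finite G] [Group.IsSolvable G] [MulAction G Ω]
  [Finite Ω] [Nontrivial Ω], Two G Ω → TwoF G Ω

def OfAFF : Prop := SOL ∧ CRDN ∧ AFF
def OfTWO : Prop := SOL → TWO ∧ FIX
def OfABS : Prop := TWO → ABS ∧ PART

/-! ## 3. Number theory and finite fields -/

/-- `u` is a primitive prime divisor of `p ^ d - 1`. -/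
def Ppd (p d u : ℕ) : Prop := u.Prime ∧ u ∣ p ^ d - 1 ∧ ∀ j, 0 < j → j < d → ¬ u ∣ p ^ j - 1

def ZS : Prop := ∀ p d : ℕ, p.Prime → 3 ≤ d → ¬ (p = 2 ∧ d = 6) → ∃ u, Ppd p d u

def DEG : Prop := ∀ p M t i : ℕ, p.Prime → 1 ≤ t → t ≤ M → p ^ M - 1 ∣ t * (p ^ i - 1) → M ∣ i

def T3 : Prop := ∀ p d i j i' j' : ℕ, p.Prime → 0 < i → i < d → 0 < j → j < d → 0 < i' → i' < d →
  0 < j' → j' < d → i ≠ j → i' ≠ j' → i ≠ i' → j ≠ j' → (i + j') % d ≠ (i' + j) % d →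
  ((p : ℤ) ^ d - 1 ∣ d * (((p : ℤ) ^ i - 1) * (p ^ j' - 1) - (p ^ i' - 1) * (p ^ j - 1))) →
  p = 3 ∧ d = 4 ∧ Int.gcd (((3 : ℤ) ^ i - 1) * (3 ^ j' - 1) - (3 ^ i' - 1) * (3 ^ j - 1)) 80 = 20

structure EXP : Prop where
  one : ∀ (F : Type) [Field F] [Fintype F] [Fintype (F ≃+* F)] (L : F →+ F),
    ∃ c : (F ≃+* F) → F, ∀ x, L x = ∑ σ, c σ * σ x
  ex : ∀ (F : Type) [Field F] [Fintype F] [Fintype (F ≃+* F)] (β : F →+ F →+ F),
    ∃ c : (F ≃+* F) → (F ≃+* F) → F, ∀ x y, β x y = ∑ σ, ∑ τ, c σ τ * σ x * τ y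
  un : ∀ (F : Type) [Field F] [Fintype F] [Fintype (F ≃+* F)] (c c' : (F ≃+* F) → (F ≃+* F) → F),
    (∀ x y, ∑ σ, ∑ τ, c σ τ * σ x * τ y = ∑ σ, ∑ τ, c' σ τ * σ x * τ y) → c = c'
  comm : ∀ (F : Type) [Field F] [Finite F] (σ τ : F ≃+* F) (x : F), σ (τ x) = τ (σ x)
  frob : ∀ (F : Type) [Field F] [Finite F] (p d : ℕ), p.Prime → Nat.card F = p ^ d →
    Nat.card (F ≃+* F) = d ∧ (∀ σ : F ≃+* F, ∃ i < d, ∀ x, σ x = x ^ p ^ i) ∧
    (∀ i, ∃ σ : F ≃+* F, ∀ x, σ x = x ^ p ^ i) ∧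
    ∀ i j, (∀ x : F, x ^ p ^ i = x ^ p ^ j) → i % d = j % d
  elf : ∀ (X : Type) [AddCommGroup X] [Finite X] [Nontrivial X] (p : ℕ), p.Prime →
    (∀ x : X, p • x = 0) → ∃ (F : Type) (_ : Field F) (_ : Finite F), Nonempty (X ≃+ F)
  elf' : ∀ (X F : Type) [AddCommGroup X] [Field F] [Finite F] (p : ℕ), p.Prime →
    (∀ x : X, p • x = 0) → Nat.card X = Nat.card F → Nonempty (X ≃+ F)

def SYMP : Prop := ∀ (F : Type) [Field F] [Finite F] (t j : ℕ), t.Prime → Nat.card F = t ^ j →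
  ∀ f : F →+ F →+ ZMod t, f ≠ 0 → (∀ x, f x x = 0) → ∃ i, 1 ≤ i ∧ 2 * i ≤ j ∧ ∀ u : F, u ≠ 0 →
    (∃ m : ZMod t, ∀ x y, f (u * x) (u * y) = m * f x y) → u ^ ((1 + t ^ i) * (t - 1)) = 1

def OfT3 : Prop := DEG ∧ T3
def OfSYMP : Prop := EXP → SYMP

/-! ## 4. Soluble linear groups -/

section Lin
variable (G X : Type) [Group G] [AddCommGroup X] [DistribMulAction G X]

def Faith : Prop := ∀ g : G, (∀ x : X, g • x = x) → g = 1

def Tr1 : Prop := ∀ x y : X, x ≠ 0 → y ≠ 0 → ∃ g : G, g • x = y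

/-- At most two orbits on non-zero vectors. -/
def Tr2 : Prop := ∀ x y z : X, x ≠ 0 → y ≠ 0 → z ≠ 0 →
  (∃ g : G, g • x = y) ∨ (∃ g : G, g • x = z) ∨ ∃ g : G, g • y = z

def Irr : Prop := ∀ W : AddSubgroup X, (∀ g : G, ∀ x ∈ W, g • x ∈ W) → W = ⊥ ∨ W = ⊤

/-- The action is one-dimensional semilinear. -/
def Semi : Prop := ∃ (F : Type) (_ : Field F) (_ : Finite F) (e : X ≃+ F),
  ∀ g : G, ∃ (a : F) (σ : F ≃+* F), ∀ x, e (g • x) = a * σ (e x)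

/-- An imprimitive decomposition. -/
def Split : Prop := ∃ V₁ V₂ : AddSubgroup X, V₁ ≠ ⊥ ∧ V₂ ≠ ⊥ ∧ IsCompl V₁ V₂ ∧
  ∀ g : G, (g • V₁ = V₁ ∧ g • V₂ = V₂) ∨ (g • V₁ = V₂ ∧ g • V₂ = V₁)

/-- The ring generated by `B` has no zero divisors on `X`. -/
def Fld (B : Subgroup G) : Prop :=
  ∀ z ∈ Subring.closure ((fun b => DistribMulAction.toAddMonoidEnd G X b) '' (B : Set G)),
    z = 0 ∨ Function.Injective z

/-- The elements that act as plus or minus one. -/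
def Zpm : Subgroup G where
  carrier := {g | (∀ x : X, g • x = x) ∨ ∀ x : X, g • x = -x}
  one_mem' := Or.inl (one_smul G)
  mul_mem' := by
    rintro g h (hg | hg) (hh | hh)
    exacts [Or.inl fun x => by rw [mul_smul, hh, hg], Or.inr fun x => by rw [mul_smul, hh, hg],
      Or.inr fun x => by rw [mul_smul, hh, hg],
      Or.inl fun x => by rw [mul_smul, hh, hg, neg_neg]]
  inv_mem' := by
    rintro g (hg | hg)
    exacts [Or.inl fun x => by rw [inv_smul_eq_iff, hg],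
      Or.inr fun x => by rw [inv_smul_eq_iff, hg, neg_neg]]

/-- The structure of the exceptional groups of degree 81. -/
def Ex : Prop := ∃ E : Subgroup G, E.Normal ∧ Zpm G X ≤ E ∧ (Zpm G X).relIndex E = 16 ∧
  (∀ x ∈ E, ∀ y ∈ E, x * y * x⁻¹ * y⁻¹ ∈ Zpm G X) ∧ (∀ x ∈ E, x ^ 2 ∈ Zpm G X) ∧
  ∀ B : Subgroup G, B.Normal → (∀ x ∈ B, ∀ y ∈ B, ∀ v : X, x • y • v = y • x • v) → B ≤ Zpm G X

/-- The exceptional degrees and orders. -/
def ExN (q o : ℕ) : Prop :=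
  (∃ p ∈ [3, 5, 7, 11, 23], q = p ^ 2 ∧ o ∣ 24 * (p - 1)) ∨ (q = 81 ∧ o ∣ 645120)

/-- A maximal abelian normal subgroup and the field it generates. -/
structure Str (Φ : Type) [Field Φ] [Module Φ X] (A : Subgroup G) : Prop where
  faith : Faith G X
  norm : A.Normal
  scal : ∀ a ∈ A, ∃ c : Φ, ∀ x : X, a • x = c • x
  gen : ∀ S : Subring Φ, (∀ c : Φ, (∃ a ∈ A, ∀ x : X, a • x = c • x) → c ∈ S) → S = ⊤
  semi : ∀ g : G, ∃ σ : Φ ≃+* Φ, ∀ (c : Φ) (x : X), g • c • x = σ c • g • x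
  max : ∀ B : Subgroup G, B.Normal → Ab B → A ≤ B → B ≤ A

structure StrF (Φ : Type) [Field Φ] [Module Φ X] (A : Subgroup G) : Prop where
  ab : Ab A
  cyc : IsCyclic A
  card : Nat.card A ∣ Nat.card Φ - 1
  idx : ∀ p f, p.Prime → Nat.card Φ = p ^ f → (Subgroup.centralizer (A : Set G)).index ∣ f
  lin : ∀ g : G, g ∈ Subgroup.centralizer (A : Set G) ↔ ∀ (c : Φ) (x : X), g • c • x = c • g • x
  cn : (Subgroup.centralizer (A : Set G)).Normal
  le : A ≤ Subgroup.centralizer (A : Set G)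
  free : ∀ a ∈ A, ∀ x : X, x ≠ 0 → a • x = x → a = 1
  size : Nat.card X = Nat.card Φ ^ Module.finrank Φ X
  one : Module.finrank Φ X = 1 → Semi G X
  sub : ∀ W : AddSubgroup X, (∀ a ∈ A, ∀ x ∈ W, a • x ∈ W) → ∀ c : Φ, ∀ x ∈ W, c • x ∈ W
  small : Tr2 G X → Subgroup.centralizer (A : Set G) ≤ A → Module.finrank Φ X = 1

end Lin

structure Sym {G : Type} [Group G] (A E : Subgroup G) (t : ℕ) : Prop where
  prime : t.Prime
  norm : E.Normal
  lt : A < E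
  cent : E ≤ Subgroup.centralizer (A : Set G)
  comm : ∀ x ∈ E, ∀ y ∈ E, x * y * x⁻¹ * y⁻¹ ∈ A
  pow : ∀ x ∈ E, x ^ t ∈ A

structure SymF (G X : Type) [Group G] [AddCommGroup X] (Φ : Type) [Field Φ] [Module Φ X]
    (A E : Subgroup G) (t : ℕ) : Prop where
  nd : ∀ x ∈ E, (∀ y ∈ E, x * y = y * x) → x ∈ A
  exp : ∀ x ∈ E, ∀ y ∈ E, (x * y * x⁻¹ * y⁻¹) ^ t = 1
  root : ∃ z ∈ A, orderOf z = t
  dvd : t ∣ Nat.card Φ - 1
  ind : A.relIndex E ≤ Module.finrank Φ X ^ 2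
  pw : ∃ j, 2 ≤ j ∧ A.relIndex E = t ^ j

def QP : Prop := ∀ (G X : Type) [Group G] [AddCommGroup X] [Finite X] [DistribMulAction G X],
  Irr G X → ∀ B : Subgroup G, B.Normal → (∀ x ∈ B, ∀ y ∈ B, ∀ v : X, x • y • v = y • x • v) →
  (Tr1 G X → Fld G X B) ∧ (Tr2 G X → Fld G X B ∨ Split G X)

def STRE : Prop := ∀ (G X : Type) [Group G] [Finite G] [AddCommGroup X] [Finite X] [Nontrivial X]
  [DistribMulAction G X], Faith G X → (∀ B : Subgroup G, B.Normal → Ab B → Fld G X B) →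
  ∃ (Φ : Type) (_ : Field Φ) (_ : Finite Φ) (_ : Module Φ X) (A : Subgroup G), Str G X Φ A

def STRF : Prop := ∀ (G X Φ : Type) [Group G] [Finite G] [AddCommGroup X] [Finite X] [Nontrivial X]
  [DistribMulAction G X] [Field Φ] [Finite Φ] [Module Φ X] (A : Subgroup G),
  Str G X Φ A → StrF G X Φ A

structure STR : Prop where
  ex : STRE
  facts : STRF

/-- The common frame of the rows on `Str` and `Sym`. -/
def AllS (P : ∀ (G X Φ : Type) [Group G] [AddCommGroup X] [DistribMulAction G X] [Field Φ]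
    [Module Φ X], Subgroup G → Subgroup G → ℕ → Prop) : Prop :=
  ∀ (G X Φ : Type) [Group G] [Finite G] [AddCommGroup X] [Finite X] [Nontrivial X]
    [DistribMulAction G X] [Field Φ] [Finite Φ] [Module Φ X] (A E : Subgroup G) (t : ℕ),
    Str G X Φ A → StrF G X Φ A → Sym A E t → P G X Φ A E t

def SYM : Prop := AllS fun G X Φ _ _ _ _ _ A E t => SymF G X Φ A E t

def ORD : Prop := AllS fun G X Φ _ _ _ _ _ A E t => SymF G X Φ A E t →
  Subgroup.centralizer (A : Set G) ⊓ Subgroup.centralizer (E : Set G) ≤ A →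
  ∀ p f j : ℕ, p.Prime → Nat.card Φ = p ^ f → A.relIndex E = t ^ j →
    Nat.card G ∣ f * (Nat.card Φ - 1) * t ^ j * ∏ i ∈ Finset.range j, (t ^ j - t ^ i)

def COV : Prop := AllS fun G X Φ _ _ _ _ _ A E t => SymF G X Φ A E t → Tr1 G X →
  t = 2 ∧ (A.relIndex E = 4 ∨ ∃ δ, Module.finrank Φ X = 2 * δ ∧
    Nat.card Φ ^ δ + 1 ≤ 2 * (A.relIndex E - 1))

/-- The theorem of Huppert for faithful actions. -/
def HUPF : Prop := ∀ (G X : Type) [Group G] [Finite G] [Group.IsSolvable G] [AddCommGroup X]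
  [Finite X] [Nontrivial X] [DistribMulAction G X], Faith G X → Tr1 G X →
  Semi G X ∨ (ExN (Nat.card X) (Nat.card G) ∧ (Nat.card X = 81 → Ex G X))

structure HUPB : Prop where
  ord : ∀ (G X : Type) [Group G] [AddCommGroup X] [DistribMulAction G X] (p d : ℕ), p.Prime →
    Nat.card X = p ^ d → Semi G X → kidx G X ∣ d * (p ^ d - 1)
  orb : ∀ (G Ω : Type) [Group G] [MulAction G Ω] (T : Subgroup G) (x : Ω),
    Nat.card (orbit G x) ∣ T.index * Nat.card (orbit T x)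
  lin : ∀ (G X F : Type) [Group G] [AddCommGroup X] [DistribMulAction G X] [Field F] [Finite F]
    (e : X ≃+ F) (p d Δ : ℕ), p.Prime → Nat.card F = p ^ d → Tr1 G X →
    (∀ g : G, ∃ (a : F) (σ : F ≃+* F), ∀ x, e (g • x) = a * σ (e x)) →
    (∀ (g : G) (a : F), (∀ x, e (g • x) = a * e x) → a ^ Δ = 1) → p ^ d - 1 ∣ d * Δ
  el : ∀ (G X : Type) [Group G] [AddCommGroup X] [Finite X] [Nontrivial X] [DistribMulAction G X],
    Irr G X → ∃ p d : ℕ, p.Prime ∧ 1 ≤ d ∧ Nat.card X = p ^ d ∧ ∀ x : X, p • x = 0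
  irr : ∀ (G X : Type) [Group G] [AddCommGroup X] [DistribMulAction G X], Tr1 G X → Irr G X

structure HUP : Prop extends HUPB where
  hup : ∀ (G X : Type) [Group G] [Finite G] [Group.IsSolvable G] [AddCommGroup X] [Finite X]
    [Nontrivial X] [DistribMulAction G X], Tr1 G X →
    Semi G X ∨ (ExN (Nat.card X) (kidx G X) ∧ (Nat.card X = 81 → Ex G X))
  sub : ∀ (G V : Type) [Group G] [Finite G] [Group.IsSolvable G] [AddCommGroup V] [Finite V]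
    [DistribMulAction G V] (H : Subgroup G) (W : AddSubgroup V) (p d : ℕ), p.Prime → W ≠ ⊥ →
    Nat.card W = p ^ d → (∀ h ∈ H, ∀ x ∈ W, h • x ∈ W) →
    (∀ x ∈ W, ∀ y ∈ W, x ≠ 0 → y ≠ 0 → ∃ h ∈ H, h • x = y) →
    ((fixingSubgroup G (W : Set V)).relIndex H ∣ d * (p ^ d - 1) ∧
      ∃ (F : Type) (_ : Field F) (_ : Finite F) (e : W ≃+ F), ∀ h ∈ H, ∃ (a : F) (σ : F ≃+* F),
        ∀ x y : W, h • (x : V) = y → e y = a * σ (e x)) ∨
    ExN (p ^ d) ((fixingSubgroup G (W : Set V)).relIndex H)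
  two : ∀ (G Ω : Type) [Group G] [Finite G] [Group.IsSolvable G] [MulAction G Ω] [Finite Ω]
    [Nontrivial Ω], Two G Ω → ¬ Nat.card Ω ^ 2 ∣ kidx G Ω

def OfHUPB : Prop := EXP → HUPB
def OfSTRF : Prop := EXP → STRF
def OfHUPF : Prop := SOL → QP → STR → SYM → ORD → COV → HUPF
def OfHUP : Prop := CRDN → TWO → HUPF → HUPB → HUP

end Pool.Agent.MP_f8e15f_co.H33
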