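import Pool.Agent.MP_f8e15f_co.H33.Spec

/-!
Specification, part 2: translation designs, nets, bilinear maps, the reduction and the converse.
-/

open MulAction Pointwise

namespace Pool.Agent.MP_f8e15f_co.H33

open Pool.Agent.MP_f8e15f_co.H24

/-! ## 5. Translation designs and nets -/

/-- All cosets of the members of `𝓜`. -/
def trans {V : Type} [AddCommGroup V] (𝓜 : Set (AddSubgroup V)) : Set (Set V) :=
  {S | ∃ M ∈ 𝓜, ∃ v, S = {x | x - v ∈ M}}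

section Net
variable (G : Type) {V : Type} [Group G] [AddCommGroup V] [DistribMulAction G V]
  (𝓜 : Set (AddSubgroup V))

structure TrC : Prop where
  perm : ∀ (g : G), ∀ M ∈ 𝓜, g • M ∈ 𝓜
  sup : ∀ M ∈ 𝓜, ∀ M' ∈ 𝓜, M ≠ M' → M ⊔ M' = ⊤
  ex : ∃ M ∈ 𝓜, ∃ M' ∈ 𝓜, M ≠ M'
  two : ∀ M ∈ 𝓜, ∀ M' ∈ 𝓜, ∀ L ∈ 𝓜, ∀ L' ∈ 𝓜, M ≠ M' → L ≠ L' → ∃ g : G, g • M = L ∧ g • M' = L'
  t1 : ∀ M ∈ 𝓜, ∀ M' ∈ 𝓜, ∀ v ∈ M, ∀ w ∈ M', v ≠ 0 → w ≠ 0 → ∃ g : G, g • v = w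
  t2 : ∀ v w : V, (∀ M ∈ 𝓜, v ∉ M) → (∀ M ∈ 𝓜, w ∉ M) → ∃ g : G, g • v = w
  anti : ∀ M ∈ 𝓜, ∀ v ∉ M, ∀ w ∉ M, ∃ g : G, g • M = M ∧ g • v - w ∈ M

structure Tr : Prop extends TrC G 𝓜 where
  faith : Faith G V
  irr : Irr G V

structure Net : Prop extends Tr G 𝓜 where
  inf : ∀ M ∈ 𝓜, ∀ M' ∈ 𝓜, M ≠ M' → M ⊓ M' = ⊥
  three : 3 ≤ 𝓜.ncard

/-- The kernel of the action on the components. -/
def Kn : Subgroup G := ⨅ L ∈ 𝓜, stabilizer G L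

def O1 : Set V := {v | v ≠ 0 ∧ ∃ L ∈ 𝓜, v ∈ L}

def O2 : Set V := {v | ∀ L ∈ 𝓜, v ∉ L}

structure NF (p e : ℕ) : Prop where
  prime : p.Prime
  pos : 1 ≤ e
  tor : ∀ v : V, p • v = 0
  cL : ∀ L ∈ 𝓜, Nat.card L = p ^ e
  cV : Nat.card V = (p ^ e) ^ 2
  ne : ∀ L ∈ 𝓜, L ≠ ⊥
  compl : ∀ L ∈ 𝓜, ∀ L' ∈ 𝓜, L ≠ L' → IsCompl L L'
  le : 𝓜.ncard ≤ p ^ e + 1
  pp : IsPrimePow 𝓜.ncard
  c1 : (O1 𝓜).ncard = 𝓜.ncard * (p ^ e - 1)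
  c2 : (O2 𝓜).ncard = (p ^ e - 1) * (p ^ e + 1 - 𝓜.ncard)
  d1 : 𝓜.ncard * (p ^ e - 1) ∣ Nat.card G
  d2 : 𝓜.ncard = p ^ e + 1 ∨ (p ^ e - 1) * (p ^ e + 1 - 𝓜.ncard) ∣ Nat.card G
  orb : ∀ W : Set V, (∀ g : G, ∀ v ∈ W, g • v ∈ W) → 0 ∉ W →
    W = ∅ ∨ W = O1 𝓜 ∨ W = O2 𝓜 ∨ W = {0}ᶜ
  tr2 : Tr2 G V
  mem : ∀ k : G, k ∈ Kn G 𝓜 ↔ ∀ L ∈ 𝓜, ∀ v ∈ L, k • v ∈ L
  kn : (Kn G 𝓜).Normal
  idx : 𝓜.ncard * (𝓜.ncard - 1) ∣ (Kn G 𝓜).index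
  fac : (Kn G 𝓜).index ∣ 𝓜.ncard.factorial
  kf : ∀ L ∈ 𝓜, ∀ k ∈ Kn G 𝓜, (∀ v ∈ L, k • v = v) → k = 1
  stab : ∀ L ∈ 𝓜, ∀ v ∈ L, ∀ w ∈ L, v ≠ 0 → w ≠ 0 → ∃ g ∈ stabilizer G L, g • v = w
  sidx : ∀ L ∈ 𝓜, (stabilizer G L).index = 𝓜.ncard
  ntr : ∀ M : Subgroup G, M.Normal → ¬ M ≤ Kn G 𝓜 → ∀ L ∈ 𝓜, ∀ L' ∈ 𝓜, ∃ m ∈ M, m • L = L'
  max : ∀ L ∈ 𝓜, ∀ H : Subgroup G, stabilizer G L ≤ H → H = stabilizer G L ∨ H = ⊤
  reg : ∃ S : Subgroup G, (∀ L ∈ 𝓜, ∀ L' ∈ 𝓜, ∃ s ∈ S, s • L = L') ∧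
    (∀ s ∈ S, ∀ s' ∈ S, ∀ L ∈ 𝓜, s • s' • L = s' • s • L) ∧
    ∃ t j : ℕ, t.Prime ∧ 𝓜.ncard = t ^ j ∧ ∀ s ∈ S, ∀ L ∈ 𝓜, s ^ t • L = L
  act : ∃ _ : MulAction G 𝓜, (∀ (g : G) (L : 𝓜), (g • L).1 = g • L.1) ∧ Two G 𝓜 ∧
    (toPermHom G 𝓜).ker = Kn G 𝓜

/-- The net is one of the listed nets of the plane over a field. -/
def Slp : Prop := ∃ (F : Type) (_ : Field F) (_ : Finite F) (S : Set F) (e : V ≃+ F × F),
  Slopes S ∧ ∀ L, L ∈ 𝓜 ↔ (∀ v, v ∈ L ↔ (e v).1 = 0) ∨ ∃ s ∈ S, ∀ v, v ∈ L ↔ (e v).2 = s * (e v).1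

/-- Coordinates adapted to three complementary simple submodules. -/
structure Crd (U Ψ : Type) [AddCommGroup U] [Field Ψ] [Module Ψ U] (E : Subgroup G)
    (L₁ L₂ L₃ : AddSubgroup V) (e : V ≃+ U × U) : Prop where
  l1 : ∀ v, v ∈ L₁ ↔ (e v).2 = 0
  l2 : ∀ v, v ∈ L₂ ↔ (e v).1 = 0
  l3 : ∀ v, v ∈ L₃ ↔ (e v).2 = (e v).1
  card : Nat.card U = Nat.card L₁
  diag : ∀ x ∈ E, ∃ ρ : U →ₗ[Ψ] U, ∀ v, e (x • v) = (ρ (e v).1, ρ (e v).2)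
  comm : ∀ φ : U →+ U, (∀ x ∈ E, ∀ u, φ (e (x • e.symm (u, 0))).1 = (e (x • e.symm (φ u, 0))).1) →
    ∃ s : Ψ, ∀ u, φ u = s • u
  graph : ∀ W : AddSubgroup V, (∀ x ∈ E, ∀ v ∈ W, x • v ∈ W) → Nat.card W = Nat.card U →
    W = L₂ ∨ ∃ s : Ψ, ∀ v, v ∈ W ↔ (e v).2 = s • (e v).1
  mob : ∀ g : G, (∀ x ∈ E, g * x * g⁻¹ ∈ E) → ∃ (m : U ≃+ U) (σ : Ψ ≃+* Ψ) (a b c d : Ψ),
    (∀ (s : Ψ) u, m (s • u) = σ s • m u) ∧
    ∀ v, e (g • v) = (m (a • (e v).1 + b • (e v).2), m (c • (e v).1 + d • (e v).2))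

end Net

structure CRD : Prop where
  crd : ∀ (G V : Type) [Group G] [Finite G] [AddCommGroup V] [Finite V] [DistribMulAction G V]
    (E : Subgroup G) (L₁ L₂ L₃ : AddSubgroup V), IsCompl L₁ L₂ → IsCompl L₁ L₃ → IsCompl L₂ L₃ →
    L₁ ≠ ⊥ → (∀ x ∈ E, (∀ v ∈ L₁, x • v ∈ L₁) ∧ (∀ v ∈ L₂, x • v ∈ L₂) ∧ ∀ v ∈ L₃, x • v ∈ L₃) →
    (∀ W ≤ L₁, (∀ x ∈ E, ∀ v ∈ W, x • v ∈ W) → W = ⊥ ∨ W = L₁) →
    ∃ (U Ψ : Type) (_ : AddCommGroup U) (_ : Finite U) (_ : Field Ψ) (_ : Finite Ψ) (_ : Module Ψ U)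
      (e : V ≃+ U × U), Crd G U Ψ E L₁ L₂ L₃ e
  std : ∀ (V X : Type) [AddCommGroup V] [AddCommGroup X] (L₁ L₂ L₃ : AddSubgroup V),
    IsCompl L₁ L₂ → IsCompl L₁ L₃ → IsCompl L₂ L₃ → Nonempty (L₁ ≃+ X) → ∃ e : V ≃+ X × X,
      (∀ v, v ∈ L₁ ↔ (e v).2 = 0) ∧ (∀ v, v ∈ L₂ ↔ (e v).1 = 0) ∧ ∀ v, v ∈ L₃ ↔ (e v).2 = (e v).1

/-- The common frame of the rows on translation designs. -/
def AllT (P : ∀ (G V : Type) [Group G] [AddCommGroup V] [DistribMulAction G V],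
    Set (AddSubgroup V) → Prop) : Prop :=
  ∀ (G V : Type) [Group G] [Finite G] [Group.IsSolvable G] [AddCommGroup V] [Finite V]
    [DistribMulAction G V] (𝓜 : Set (AddSubgroup V)), P G V 𝓜

def N0 : Prop := AllT fun G _ _ _ _ 𝓜 => Net G 𝓜 → ∃ p e, NF G 𝓜 p e

def NIMP : Prop := AllT fun G V _ _ _ 𝓜 => Net G 𝓜 → ∀ p e, NF G 𝓜 p e → Split G V → Slp 𝓜

/-- A non-abelian normal subgroup of class two inside the kernel. -/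
structure KS {G : Type} [Group G] (K E : Subgroup G) (t : ℕ) : Prop where
  prime : t.Prime
  norm : E.Normal
  le : E ≤ K
  comm : ∀ x ∈ E, ∀ y ∈ E, ∀ z ∈ E, x * y * x⁻¹ * y⁻¹ * z = z * (x * y * x⁻¹ * y⁻¹)
  pow : ∀ x ∈ E, ∀ z ∈ E, x ^ t * z = z * x ^ t
  nab : ¬ Ab E
  max : ∀ B : Subgroup G, B.Normal → B ≤ E → Ab B → ∀ b ∈ B, ∀ z ∈ E, b * z = z * b

/-- The components are all the lines over the commutant field. -/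
def Full (G : Type) {V : Type} [Group G] [AddCommGroup V] [DistribMulAction G V]
    (𝓜 : Set (AddSubgroup V)) (E : Subgroup G) (t : ℕ) : Prop :=
  ∃ (U Ψ : Type) (_ : AddCommGroup U) (_ : Finite U) (_ : Field Ψ) (_ : Finite Ψ) (_ : Module Ψ U)
    (e : V ≃+ U × U) (L₁ L₂ L₃ : AddSubgroup V), L₁ ∈ 𝓜 ∧ Crd G U Ψ E L₁ L₂ L₃ e ∧
    2 ≤ Module.finrank Ψ U ∧ t ∣ Nat.card Ψ - 1 ∧ 𝓜.ncard = Nat.card Ψ + 1 ∧
    ∀ L, L ∈ 𝓜 ↔ (∀ v, v ∈ L ↔ (e v).1 = 0) ∨ ∃ s : Ψ, ∀ v, v ∈ L ↔ (e v).2 = s • (e v).1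

def NA1 : Prop := AllT fun G _ _ _ _ 𝓜 => Net G 𝓜 → ∀ p e, NF G 𝓜 p e → ∀ E t,
  KS (Kn G 𝓜) E t → Full G 𝓜 E t

def NA2 : Prop := AllT fun G V _ _ _ 𝓜 => Net G 𝓜 → ∀ p e, NF G 𝓜 p e → ∀ E t,
  KS (Kn G 𝓜) E t → t + 1 < 𝓜.ncard → ∀ L ∈ 𝓜,
  ExN (p ^ e) ((fixingSubgroup G (L : Set V)).relIndex (stabilizer G L))

def NA3 : Prop := AllT fun G V _ _ _ 𝓜 => Net G 𝓜 → ∀ p e, NF G 𝓜 p e → ∀ E t,
  KS (Kn G 𝓜) E t → Full G 𝓜 E t →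
  (∀ L ∈ 𝓜, ExN (p ^ e) ((fixingSubgroup G (L : Set V)).relIndex (stabilizer G L))) → Slp 𝓜

/-- First half of the regular symplectic case: the order of the group induced on the components. -/
def NB0 : Prop := AllT fun G V _ _ _ 𝓜 => Net G 𝓜 → ∀ p e, NF G 𝓜 p e →
  ∀ (Φ : Type) [Field Φ] [Finite Φ] [Module Φ V] (A E : Subgroup G) (t : ℕ), Str G V Φ A →
  StrF G V Φ A → Sym A E t → SymF G V Φ A E t → A ≤ Kn G 𝓜 →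
  Kn G 𝓜 ⊓ Subgroup.centralizer (A : Set G) ≤ A →
  𝓜.ncard = A.relIndex E ∧
    ((𝓜.ncard = t ^ 2 ∧ ((Kn G 𝓜).index ∣ t ^ 2 * (2 * (t ^ 2 - 1)) ∨
      (t ∈ [3, 5, 7, 11, 23] ∧ (Kn G 𝓜).index ∣ t ^ 2 * (24 * (t - 1))))) ∨
    (t = 3 ∧ 𝓜.ncard = 81 ∧ (Kn G 𝓜).index ∣ 81 * 645120))

/-- The arithmetic of the regular symplectic case. -/
def NBN : Prop := ∀ p f t δ r o g : ℕ, p.Prime → t.Prime → 1 ≤ f → 1 ≤ δ → t ∣ p ^ f - 1 →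
  r ≤ (2 * δ) ^ 2 → r ≤ (p ^ f) ^ δ + 1 → g ∣ o * (f * (p ^ f - 1)) →
  r * ((p ^ f) ^ δ - 1) ∣ g →
  (r = (p ^ f) ^ δ + 1 ∨ ((p ^ f) ^ δ - 1) * ((p ^ f) ^ δ + 1 - r) ∣ g) →
  ((r = t ^ 2 ∧ (o ∣ t ^ 2 * (2 * (t ^ 2 - 1)) ∨
    (t ∈ [3, 5, 7, 11, 23] ∧ o ∣ t ^ 2 * (24 * (t - 1))))) ∨ (t = 3 ∧ r = 81 ∧ o ∣ 81 * 645120)) →
  r = 4 ∧ δ = 1 ∧ p ^ f ∈ [3, 5, 7, 9, 11, 27]

def NB2 : Prop := AllT fun G V _ _ _ 𝓜 => Net G 𝓜 → ∀ p e, NF G 𝓜 p e →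
  ∀ (Φ : Type) [Field Φ] [Finite Φ] [Module Φ V] (A : Subgroup G), Str G V Φ A → StrF G V Φ A →
  A ≤ Kn G 𝓜 → Kn G 𝓜 ⊓ Subgroup.centralizer (A : Set G) ≤ A → 𝓜.ncard = 4 →
  Nat.card Φ = p ^ e → p ^ e ∈ [3, 5, 7, 9, 11, 27] → Slp 𝓜

def NET : Prop := AllT fun G V _ _ _ 𝓜 => Net G 𝓜 → Semi G V ∨ Slp 𝓜

def TR1 : Prop := AllT fun G _ _ _ _ 𝓜 => Tr G 𝓜 → (∃ v, ∀ M ∈ 𝓜, v ∉ M) →
  ∀ M ∈ 𝓜, ∀ M' ∈ 𝓜, M ≠ M' → M ⊓ M' = ⊥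

def TR2 : Prop := AllT fun G V _ _ _ 𝓜 => Tr G 𝓜 → (∀ v, ∃ M ∈ 𝓜, v ∈ M) →
  (∀ M ∈ 𝓜, ∀ M' ∈ 𝓜, M ≠ M' → M ⊓ M' = ⊥) ∨ (Semi G V ∧ 3 ≤ 𝓜.ncard)

def GRID : Prop := AllT fun G _ _ _ _ 𝓜 => Tr G 𝓜 →
  (∀ M ∈ 𝓜, ∀ M' ∈ 𝓜, M ≠ M' → M ⊓ M' = ⊥) → 𝓜.ncard < 3 → Slp 𝓜

def SLPM : Prop := ∀ (V : Type) [AddCommGroup V] (𝓜 : Set (AddSubgroup V)), Slp 𝓜 → Mod (trans 𝓜)

/-- The affine group of a translation design. -/
def CVT : Prop := ∀ (G V : Type) [Group G] [AddCommGroup V] [Finite V] [DistribMulAction G V]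
  (𝓜 : Set (AddSubgroup V)), TrC G 𝓜 → ∃ (k : ℕ) (Γ : Subgroup (Equiv.Perm V)), 1 ≤ k ∧
    IsOneDesign (trans 𝓜) k 𝓜.ncard ∧ 2 ≤ 𝓜.ncard ∧ PairwiseTransitive Γ (trans 𝓜) ∧
    (∀ γ ∈ Γ, ∃ (g : G) (c : V), ∀ x, γ x = g • x + c) ∧ (Group.IsSolvable G → Group.IsSolvable Γ)

def H24A : Prop := AllT fun G V _ _ _ 𝓜 => TrC G 𝓜 → Semi G V → 3 ≤ 𝓜.ncard → Mod (trans 𝓜)

def OfN0 : Prop := TWO → HUP → N0
def OfNIMP : Prop := EXP → HUP → CRD → NIMP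
def OfNA1 : Prop := CRD → NA1
def OfNA2 : Prop := EXP → HUP → NA2
def OfNA3 : Prop := EXP → NA3
def OfNB0 : Prop := CRDN → EXP → SYMP → HUP → NB0
def OfNB2 : Prop := EXP → CRD → NB2
def OfNET : Prop := SOL → QP → STR → SYM → N0 → NIMP → NA1 → NA2 → NA3 → NB0 → NBN → NB2 → NET
def OfTR1 : Prop := TWO → HUP → TR1
def OfTR2 : Prop := TWO → HUP → EXP → TR2 ∧ GRID ∧ SLPM
def OfH24A : Prop := DES → CVT → H24A

/-! ## 6. Bilinear maps -/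

structure Bil (A : Type) {X Y N : Type} [Group A] [AddCommGroup X] [AddCommGroup Y]
    [AddCommGroup N] [DistribMulAction A X] [DistribMulAction A Y] [DistribMulAction A N]
    (β : X →+ Y →+ N) : Prop where
  eqv : ∀ (g : A) x y, β (g • x) (g • y) = g • β x y
  sx : ∀ x, x ≠ 0 → Function.Surjective (β x)
  sy : ∀ y, y ≠ 0 → Function.Surjective fun x => β x y
  tx : Tr1 A X
  ty : Tr1 A Y
  tn : Tr1 A N
  nx : Nontrivial X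
  ny : Nontrivial Y
  nn : Nontrivial N

def bil {X Y N : Type} [AddCommGroup X] [AddCommGroup Y] [AddCommGroup N] (β : X →+ Y →+ N) :
    Set (Set (X × N)) := {S | ∃ y w, S = {z | z.2 = β z.1 y + w}}

/-- `β` is isotopic to a member of the list. -/
def BM {X Y N : Type} [AddCommGroup X] [AddCommGroup Y] [AddCommGroup N] (β : X →+ Y →+ N) : Prop :=
  ∃ (F : Type) (_ : Field F) (_ : Finite F) (U : AddSubgroup F) (m : F → F → F) (e₁ : X ≃+ F)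
    (e₂ : Y ≃+ F) (e₃ : N ≃+ F ⧸ U), Fam U m ∧ ∀ x y, e₃ (β x y) = (m (e₁ x) (e₂ y) : F ⧸ U)

def AllB (P : ∀ (A X Y N : Type) [Group A] [AddCommGroup X] [AddCommGroup Y] [AddCommGroup N]
    [DistribMulAction A X] [DistribMulAction A Y] [DistribMulAction A N],
    (X →+ Y →+ N) → Prop) : Prop :=
  ∀ (A X Y N : Type) [Group A] [Finite A] [Group.IsSolvable A] [AddCommGroup X] [AddCommGroup Y]
    [AddCommGroup N] [Finite X] [Finite Y] [Finite N] [DistribMulAction A X] [DistribMulAction A Y]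
    [DistribMulAction A N] (β : X →+ Y →+ N), Bil A β → P A X Y N β

structure BF {X Y N : Type} [AddCommGroup X] [AddCommGroup Y] [AddCommGroup N]
    (β : X →+ Y →+ N) (p d e : ℕ) : Prop where
  prime : p.Prime
  pos : 1 ≤ e
  le : e ≤ d
  cX : Nat.card X = p ^ d
  cY : Nat.card Y = p ^ d
  cN : Nat.card N = p ^ e
  tX : ∀ x : X, p • x = 0
  tY : ∀ y : Y, p • y = 0
  tN : ∀ z : N, p • z = 0
  sep : ∀ z : N, z ≠ 0 → ∃ l : N →+ ZMod p, l z ≠ 0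
  w : ∀ l₀ l : N →+ ZMod p, l₀ ≠ 0 → ∃ w : X →+ X, ∀ x y, l (β x y) = l₀ (β (w x) y)
  nd : ∀ l₀ : N →+ ZMod p, l₀ ≠ 0 → (∀ x, (∀ y, l₀ (β x y) = 0) → x = 0) ∧
    ∀ y, (∀ x, l₀ (β x y) = 0) → y = 0

/-- The adjoint maps lie in a field of endomorphisms. -/
def InF {X Y N : Type} [AddCommGroup X] [AddCommGroup Y] [AddCommGroup N] (β : X →+ Y →+ N)
    (p : ℕ) : Prop :=
  ∃ (R : Subring (AddMonoid.End X)) (l₀ : N →+ ZMod p), l₀ ≠ 0 ∧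
    (∀ z ∈ R, z = 0 ∨ Function.Injective z) ∧
    ∀ l : N →+ ZMod p, ∃ w ∈ R, ∀ x y, l (β x y) = l₀ (β (w x) y)

/-- The kernel on `N` is irreducible on `X`. -/
def KI (A X N : Type) [Group A] [AddCommGroup X] [AddCommGroup N] [DistribMulAction A X]
    [DistribMulAction A N] : Prop :=
  ∀ W : AddSubgroup X, (∀ g : A, (∀ z : N, g • z = z) → ∀ x ∈ W, g • x ∈ W) → W = ⊥ ∨ W = ⊤

def B0 : Prop := AllB fun A X _ N _ _ _ _ _ _ _ β => (∃ p d e, BF β p d e) ∧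
  ∀ p d e, BF β p d e → (e = 1 ∨ d ≤ 2 ∨ KI A X N) → InF β p

def IRR : Prop := AllB fun _ _ _ _ _ _ _ _ _ _ _ β => ∀ p d e, BF β p d e → InF β p → BM β

def B4 : Prop := AllB fun A X _ N _ _ _ _ _ _ _ β => ∀ p d e, BF β p d e → e < d →
  ((∃ u, Ppd p d u) ∨ (p = 2 ∧ d = 6 ∧ e ≠ 3)) → KI A X N

/-- The data of the sporadic case. -/
def Sp {X Y N : Type} [AddCommGroup X] [AddCommGroup Y] [AddCommGroup N] (β : X →+ Y →+ N) : Prop :=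
  ∃ (F : Type) (_ : Field F) (_ : Finite F) (e₁ : X ≃+ F) (e₂ : Y ≃+ F) (ι : N →+ F)
    (ω ω' a b c : F), Nat.card F = 64 ∧ Function.Injective ι ∧ (∀ z, ι z ^ 8 = ι z) ∧
    ω ≠ 1 ∧ ω ^ 3 = 1 ∧ ω' ≠ 1 ∧ ω' ^ 3 = 1 ∧ a ≠ 1 ∧ a ^ 7 = 1 ∧ b ≠ 1 ∧ b ^ 7 = 1 ∧ c ≠ 1 ∧
    c ^ 7 = 1 ∧
    (∀ x y, β (e₁.symm (ω * x)) (e₂.symm (ω' * y)) = β (e₁.symm x) (e₂.symm y)) ∧
    ∀ x y, ι (β (e₁.symm (a * x)) (e₂.symm (b * y))) = c * ι (β (e₁.symm x) (e₂.symm y))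

def B5A : Prop := AllB fun A X _ N _ _ _ _ _ _ _ β => BF β 2 6 3 → ¬ KI A X N → Sp β

def B5B : Prop := AllB fun _ _ _ _ _ _ _ _ _ _ _ β => BF β 2 6 3 → Sp β → BM β

/-- Elements that act as plus or minus one on one factor commute on the other factors. -/
def Cm (A X Y : Type) [Group A] [AddCommGroup X] [AddCommGroup Y] [DistribMulAction A X]
    [DistribMulAction A Y] : Prop :=
  ∀ g ∈ Zpm A X, ∀ h ∈ Zpm A X, ∀ y : Y, g • h • y = h • g • y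

def NUC : Prop := AllB fun A X Y N _ _ _ _ _ _ _ _ => Nat.card N = Nat.card X →
  Nat.card Y = Nat.card X → Cm A X Y ∧ Cm A X N ∧ Cm A Y X ∧ Cm A Y N ∧ Cm A N X ∧ Cm A N Y

def G81 : Prop := ∀ (A X Y : Type) [Group A] [Finite A] [AddCommGroup X] [AddCommGroup Y]
  [DistribMulAction A X] [DistribMulAction A Y], Nat.card Y = 81 → Ex A X → Semi A Y →
  Cm A X Y → Cm A Y X → False

def B3 : Prop := AllB fun A X Y N _ _ _ _ _ _ _ β => BF β 3 4 4 → Cm A X Y → Cm A X N → Cm A Y X →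
  Cm A N X → Ex A X → Ex A Y → Ex A N → False

/-- Semilinear autotopisms in coordinates. -/
structure Tri (A : Type) {F : Type} [Group A] [Field F] (β : F →+ F →+ F) (a b c : A → F)
    (s₁ s₂ s₃ : A →* RingAut F) : Prop where
  nz : ∀ x y, β x y = 0 → x = 0 ∨ y = 0
  one : a 1 = 1 ∧ b 1 = 1 ∧ c 1 = 1
  ma : ∀ g h, a (g * h) = a g * s₁ g (a h)
  mb : ∀ g h, b (g * h) = b g * s₂ g (b h)
  mc : ∀ g h, c (g * h) = c g * s₃ g (c h)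
  aut : ∀ g x y, β (a g * s₁ g x) (b g * s₂ g y) = c g * s₃ g (β x y)
  sa : ∀ x, x ≠ 0 → ∃ g, a g = x
  sb : ∀ x, x ≠ 0 → ∃ g, b g = x
  sc : ∀ x, x ≠ 0 → ∃ g, c g = x

/-- Isotopic to a field or to a generalised twisted field. -/
def Tw {F : Type} [Field F] (β : F →+ F →+ F) : Prop :=
  ∃ (m : F → F → F) (e₁ e₂ e₃ : F ≃+ F), Fam ⊥ m ∧ ∀ x y, e₃ (β x y) = m (e₁ x) (e₂ y)

def B2T : Prop := AllB fun A X Y N _ _ _ _ _ _ _ β => ∀ p d, BF β p d d → Semi A X → Semi A Y →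
  Semi A N → ∃ (F : Type) (_ : Field F) (_ : Finite F) (β' : F →+ F →+ F) (a b c : A → F)
    (s₁ s₂ s₃ : A →* RingAut F), Nat.card F = p ^ d ∧ Tri A β' a b c s₁ s₂ s₃ ∧ (Tw β' → BM β)

def B2A : Prop := ∀ (A F : Type) [Group A] [Finite A] [Field F] [Finite F] (β : F →+ F →+ F)
  (a b c : A → F) (s₁ s₂ s₃ : A →* RingAut F) (p d u : ℕ), p.Prime → 2 ≤ d → Nat.card F = p ^ d →
  Ppd p d u → Tri A β a b c s₁ s₂ s₃ → Tw β ∨ (s₂ = s₁ ∧ s₃ = s₁)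

def B2S : Prop := ∀ (A F : Type) [Group A] [Finite A] [Field F] [Finite F] (β : F →+ F →+ F)
  (a b c : A → F) (s₁ s₂ s₃ : A →* RingAut F), Nat.card F = 64 → Tri A β a b c s₁ s₂ s₃ →
  ∃ H : Subgroup A, Tri H β (fun g => a g) (fun g => b g) (fun g => c g) (s₁.comp H.subtype)
    (s₁.comp H.subtype) (s₁.comp H.subtype)

/-- At most two terms. -/
def B2B : Prop := ∀ (A F : Type) [Group A] [Finite A] [Field F] [Finite F] (β : F →+ F →+ F)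
  (a b c : A → F) (s : A →* RingAut F), Tri A β a b c s s s →
  ∃ (σ τ σ' τ' : F ≃+* F) (k k' : F), ∀ x y, β x y = k * σ x * τ y + k' * σ' x * τ' y

def B2C : Prop := ∀ (A F : Type) [Group A] [Finite A] [Field F] [Finite F] (β : F →+ F →+ F)
  (a b c : A → F) (s : A →* RingAut F), Tri A β a b c s s s →
  ∀ (σ τ σ' τ' : F ≃+* F) (k k' : F), (∀ x y, β x y = k * σ x * τ y + k' * σ' x * τ' y) → Tw β

def BIL : Prop := AllB fun _ _ _ _ _ _ _ _ _ _ _ β => BM β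

def BMM : Prop := ∀ (X Y N : Type) [AddCommGroup X] [AddCommGroup Y] [AddCommGroup N]
  (β : X →+ Y →+ N), BM β → Mod (bil β)

def OfB0 : Prop := HUP → B0
def OfIRR : Prop := EXP → IRR
def OfB4 : Prop := HUP → B4
def OfB5A : Prop := EXP → HUP → B5A
def OfB5B : Prop := EXP → B5B
def OfNUC : Prop := EXP → NUC ∧ G81
def OfB2T : Prop := EXP → B2T ∧ BMM
def OfB2A : Prop := EXP → B2A
def OfB2S : Prop := EXP → HUP → B2S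
def OfB2B : Prop := EXP → HUP → DEG → T3 → B2B
def OfB2C : Prop := EXP → DEG → B2C
def OfBIL : Prop := ZS → HUP → B0 → IRR → B4 → B5A → B5B → NUC → G81 → B3 → B2T → B2A → B2S →
  B2B → B2C → BIL

/-! ## 7. The reduction -/

/-- Non-collinearity is a non-trivial equivalence relation. -/
def Imp {P B : Type} (I : P → B → Prop) : Prop :=
  (∃ p q, p ≠ q ∧ ¬ Col I p q) ∧ ∀ p q s, ¬ Col I p q → ¬ Col I q s → p = s ∨ ¬ Col I p s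

def AllC (Q : ∀ (G P B : Type) [Group G] [MulAction G P] [MulAction G B], (P → B → Prop) → Prop) :
    Prop :=
  ∀ (G P B : Type) [Group G] [Finite G] [Group.IsSolvable G] [MulAction G P] [MulAction G B]
    [Finite P] [Finite B] (I : P → B → Prop), Core G I → Q G P B I

def BLK : Prop := AllC fun G P _ _ _ _ I => (IsPreprimitive G P ∨ Imp I) ∧
  ∀ N : Subgroup G, N.Normal → N ≠ ⊥ → (∃ p q : P, ∀ n ∈ N, n • p ≠ q) →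
    ∀ p q : P, (∃ n ∈ N, n • p = q) ↔ (p = q ∨ ¬ Col I p q)

def CPL : Prop := AllC fun G P B _ _ _ I => IsPreprimitive G P → IsPrimePow (Nat.card P) →
  ∀ N : Subgroup G, N.Normal → N ≠ ⊥ → Ab N → (∀ b c : B, ∃ n ∈ N, n • b = c) → Mod (des I)

def TRB : Prop := AllC fun G P B _ _ _ I => IsPreprimitive G P →
  ∀ N : Subgroup G, N.Normal → Ab N → (∀ p q : P, ∃ n ∈ N, n • p = q) →
  (∀ b c : B, (∃ n ∈ N, n • b = c) ↔ (b = c ∨ ¬ Col (flip I) b c)) →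
  ∃ (H V : Type) (_ : Group H) (_ : Finite H) (_ : Group.IsSolvable H) (_ : AddCommGroup V)
    (_ : Finite V) (_ : DistribMulAction H V) (𝓜 : Set (AddSubgroup V)),
    Tr H 𝓜 ∧ Iso (des I) (trans 𝓜)

/-- Rows (classes of points) and columns (parallel classes). -/
structure Std (G : Type) {P B R C : Type} [Group G] [MulAction G P] [MulAction G B] [MulAction G R]
    [MulAction G C] (I : P → B → Prop) (π : P → R) (κ : B → C) : Prop where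
  eπ : ∀ (g : G) p, π (g • p) = g • π p
  eκ : ∀ (g : G) b, κ (g • b) = g • κ b
  row : ∀ p q, π p = π q ↔ (p = q ∨ ¬ Col I p q)
  col : ∀ b c, κ b = κ c ↔ (b = c ∨ ¬ Col (flip I) b c)
  meet : ∀ b ρ, ∃! p, I p b ∧ π p = ρ
  join : ∀ p γ, ∃! b, I p b ∧ κ b = γ
  nR : Nontrivial R
  nC : Nontrivial C
  big : ∀ p, ∃ q, q ≠ p ∧ π q = π p
  big' : ∀ b, ∃ c, c ≠ b ∧ κ c = κ b
  twoR : Two G R
  twoC : Two G C
  card : Nat.card R = Nat.card C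
  dvd : ∀ p, Nat.card {q // π q = π p} ∣ Nat.card R

/-- The common kernel of the actions on rows and columns. -/
structure Ker (G : Type) {P B R C : Type} [Group G] [MulAction G P] [MulAction G B] [MulAction G R]
    [MulAction G C] (π : P → R) (κ : B → C) (N : Subgroup G) : Prop where
  eq : N = (toPermHom G R).ker ⊓ (toPermHom G C).ker
  ab : Ab N
  tP : ∀ p q, π p = π q → ∃ n ∈ N, n • p = q
  tB : ∀ b c, κ b = κ c → ∃ n ∈ N, n • b = c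
  fP : ∀ n ∈ N, ∀ p : P, n • p = p → n = 1
  fB : ∀ n ∈ N, ∀ b : B, n • b = b → n = 1
  ltR : N < (toPermHom G R).ker
  ltC : N < (toPermHom G C).ker

def STD0 : Prop := AllC fun G P B _ _ _ I => Imp I → Imp (flip I) →
  ∃ (R C : Type) (_ : Finite R) (_ : Finite C) (_ : MulAction G R) (_ : MulAction G C)
    (π : P → R) (κ : B → C), Std G I π κ

def STD1 : Prop := AllC fun G P B _ _ _ I => ∀ (R C : Type) [Finite R] [Finite C] [MulAction G R]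
  [MulAction G C] (π : P → R) (κ : B → C), Std G I π κ → ∃ N, Ker G π κ N

def STD3 : Prop := AllC fun G P B _ _ _ I => ∀ (R C : Type) [Finite R] [Finite C] [MulAction G R]
  [MulAction G C] (π : P → R) (κ : B → C) (N : Subgroup G), Std G I π κ → Ker G π κ N →
  ∃ (A X Y Z : Type) (_ : Group A) (_ : Finite A) (_ : Group.IsSolvable A) (_ : AddCommGroup X)
    (_ : AddCommGroup Y) (_ : AddCommGroup Z) (_ : Finite X) (_ : Finite Y) (_ : Finite Z)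
    (_ : DistribMulAction A X) (_ : DistribMulAction A Y) (_ : DistribMulAction A Z)
    (β : X →+ Y →+ Z), Bil A β ∧ Iso (des I) (bil β)

def OfBLK : Prop := FIX → BLK ∧ CPL
def OfTRB : Prop := CRDN → TRB
def OfSTD1 : Prop := SOL → HUP → BLK → STD1
def OfSTD3 : Prop := SOL → TWO → STD3

/-! ## 8. The converse -/

def CVP : Prop :=
  (∀ (A B : Type) [Finite A] [Finite B], (Nat.card A = 1 ∨ IsPrimePow (Nat.card A)) →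
    (Nat.card B = 1 ∨ IsPrimePow (Nat.card B)) → Sol {S : Set (A × B) | ∃ a : A, S = {z | z.1 = a}}) ∧
  ∀ (A : Type) [Finite A], IsPrimePow (Nat.card A) → Sol {S : Set A | ∃ a : A, S = {a}ᶜ}

/-- The components of `slopeNet S`. -/
def comps {F : Type} [Field F] (S : Set F) : Set (AddSubgroup (F × F)) :=
  {L | (∀ v, v ∈ L ↔ v.1 = 0) ∨ ∃ s ∈ S, ∀ v, v ∈ L ↔ v.2 = s * v.1}

/-- `g` is a semilinear map of the plane that permutes the components. -/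
def Adm {F : Type} [Field F] (S : Set F) (g : (F × F) ≃ₗ[ℤ] (F × F)) : Prop :=
  (∃ σ : F ≃+* F, ∀ (c : F) v, g (c • v) = σ c • g v) ∧ ∀ L ∈ comps S, g • L ∈ comps S

/-- Slope nets: it is enough to move pairs of components and the remaining lines. -/
def CVN : Prop := ∀ (F : Type) [Field F] [Finite F] (S : Set F) (s₀ : F), s₀ ∈ S →
  (S.ncard ≤ 3 ∨ Sᶜ.ncard = 2) →
  (∀ L ∈ comps S, ∀ L' ∈ comps S, L ≠ L' → ∃ g, Adm S g ∧ (∀ v ∈ L, (g v).1 = 0) ∧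
    ∀ v ∈ L', (g v).2 = s₀ * (g v).1) →
  (∀ s ∉ S, ∀ s' ∉ S, ∃ g, Adm S g ∧ (g (1, s)).2 = s' * (g (1, s)).1) → Sol (slopeNet S)

def CVS1 : Prop := ∀ (F : Type) [Field F] [Finite F], Sol (slopeNet ({0} : Set F)) ∧
  (Nat.card F = 4 → Sol (slopeNet ({0, 1} : Set F))) ∧
  (Nat.card F = 8 → Sol (slopeNet ({0, 1}ᶜ : Set F)))

def CVS2 : Prop := ∀ (F : Type) [Field F] [Finite F],
  (Nat.card F ∈ [3, 9, 27] → Sol (slopeNet ({0, 1, -1} : Set F))) ∧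
  (Nat.card F = 7 → Sol (slopeNet ({0, 1, 3} : Set F)))

def CVH : Prop :=
  (∀ (F : Type) [Field F] [Finite F] (n ρ : ℕ) (c : F),
    (n, ρ) ∈ [(2, 3), (4, 5), (5, 3), (8, 3), (9, 5), (32, 3), (32, 11), (64, 5), (64, 13)] →
    Nat.card F = n ^ 2 → c ≠ 0 → Sol (cycloNet n ρ c)) ∧
  ∀ (F : Type) [Field F] [Finite F] (γ : F), Nat.card F = 81 → ¬ IsSquare γ → Sol (peisertNet γ)

/-- A semilinear autotopism. -/
def Atp {F N : Type} [Field F] [AddCommGroup N] (β : F →+ F →+ N) (a b : F) (γ : N ≃+ N) : Prop :=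
  a ≠ 0 ∧ b ≠ 0 ∧ ∃ σ τ : F ≃+* F, ∀ x y, β (a * σ x) (b * τ y) = γ (β x y)

def CVB : Prop := ∀ (F N : Type) [Field F] [Finite F] [AddCommGroup N] [Finite N]
  (β : F →+ F →+ N), (∀ x, x ≠ 0 → Function.Surjective (β x)) →
  (∀ y, y ≠ 0 → Function.Surjective fun x => β x y) → (∀ a, a ≠ 0 → ∃ b γ, Atp β a b γ) →
  (∀ b, b ≠ 0 → ∃ a γ, Atp β a b γ) → (∀ z z' : N, z ≠ 0 → z' ≠ 0 → ∃ a b γ, Atp β a b γ ∧ γ z = z') →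
  Sol (bil β)

def CVF : Prop := ∀ (F : Type) [Field F] [Finite F] (U : AddSubgroup F) (m : F → F → F), Fam U m →
  Sol (graphs U m)

def OfCVP : Prop := DES → CVP
def OfCVN : Prop := EXP → CVT → CVN
def OfCVS1 : Prop := EXP → CVN → CVS1
def OfCVS2 : Prop := EXP → CVN → CVS2
def OfCVB : Prop := EXP → DES → CVB
def OfCVF : Prop := EXP → CVB → CVF

end Pool.Agent.MP_f8e15f_co.H33
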