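import Pool.Agent.MP_f8e15f_co.H24.Defs

namespace Pool.Agent.MP_f8e15f_co.H33

open Pool.Agent.MP_f8e15f_co.H24

/-- Isomorphism of designs. -/
def Iso {V P : Type} (D : Set (Set V)) (E : Set (Set P)) : Prop :=
  ∃ e : V ≃ P, (fun B : Set V => e '' B) '' D = E

/-- The dual design: the points are the blocks of `E`. -/
def dual {P : Type} (E : Set (Set P)) : Set (Set E) := {S | ∃ x : P, S = {B : E | x ∈ B.1}}

/-- The vertical lines and the lines with slope in `S` of the plane over `F`. -/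
def slopeNet {F : Type} [Field F] (S : Set F) : Set (Set (F × F)) :=
  {B | (∃ c : F, B = {z | z.1 = c}) ∨ ∃ s ∈ S, ∃ c : F, B = {z | z.2 = s * z.1 + c}}

/-- The admissible sets of slopes. -/
def Slopes {F : Type} [Field F] (S : Set F) : Prop :=
  S = {0} ∨ (Nat.card F = 4 ∧ S = {0, 1}) ∨ (Nat.card F ∈ [3, 9, 27] ∧ S = {0, 1, -1}) ∨
    (Nat.card F = 7 ∧ S = {0, 1, 3}) ∨ (Nat.card F = 8 ∧ S = {0, 1}ᶜ)

/-- The graphs of the maps `x ↦ m x y + w` from `F` to `F ⧸ U`. -/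
def graphs {F : Type} [Field F] (U : AddSubgroup F) (m : F → F → F) : Set (Set (F × F ⧸ U)) :=
  {B | ∃ (y : F) (w : F ⧸ U), B = {z | z.2 = (m z.1 y : F ⧸ U) + w}}

/-- The admissible pairs of a subgroup `U` and a product `m`. -/
def Fam {F : Type} [Field F] (U : AddSubgroup F) (m : F → F → F) : Prop :=
  ((∀ x y, m x y = x * y) ∧ U ≠ ⊤ ∧ ∀ z ∉ U, ∀ z' ∉ U, ∃ (a : F) (σ : F ≃+* F),
    (∀ t, a * σ t ∈ U ↔ t ∈ U) ∧ a * σ z - z' ∈ U) ∨
  (U = ⊥ ∧ ∃ (α β : F ≃+* F) (c : F), (∀ x y, m x y = x * y - c * α x * β y) ∧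
    (∀ x y, m x y = 0 → x = 0 ∨ y = 0) ∧ (∀ x, α x = x ↔ β x = x) ∧ ∀ x, α x = β x → α x = x) ∨
  (Nat.card F = 64 ∧ (∀ t, t ∈ U ↔ t ^ 8 = t) ∧
    ∃ c : F, c ≠ 0 ∧ c ^ 21 ≠ 1 ∧ ∀ x y, m x y = x * y ^ 16 + c * x ^ 16 * y)

/-- The list. -/
inductive Listed : ∀ P : Type, Set (Set P) → Prop
  | part (A B : Type) [Finite A] [Finite B] (hA : Nat.card A = 1 ∨ IsPrimePow (Nat.card A))
      (hB : Nat.card B = 1 ∨ IsPrimePow (Nat.card B)) :
      Listed (A × B) {S | ∃ a : A, S = {z | z.1 = a}}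
  | compl (A : Type) [Finite A] (h : IsPrimePow (Nat.card A)) : Listed A {S | ∃ a : A, S = {a}ᶜ}
  | slope (F : Type) [Field F] [Finite F] (S : Set F) (h : Slopes S) : Listed (F × F) (slopeNet S)
  | cyclo (F : Type) [Field F] [Finite F] (n ρ : ℕ) (c : F)
      (h : (n, ρ) ∈ [(2, 3), (4, 5), (5, 3), (8, 3), (9, 5), (32, 3), (32, 11), (64, 5), (64, 13)])
      (hF : Nat.card F = n ^ 2) (hc : c ≠ 0) : Listed F (cycloNet n ρ c)
  | peisert (F : Type) [Field F] [Finite F] (γ : F) (hF : Nat.card F = 81) (h : ¬ IsSquare γ) :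
      Listed F (peisertNet γ)
  | graph (F : Type) [Field F] [Finite F] (U : AddSubgroup F) (m : F → F → F) (h : Fam U m) :
      Listed (F × F ⧸ U) (graphs U m)

end Pool.Agent.MP_f8e15f_co.H33
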