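import Pool.Agent.MP_f8e15f_co.H33.Spec2

/-!
Assembly: nets, bilinear maps, the main theorem from the rows.
-/

open MulAction Pointwise

namespace Pool.Agent.MP_f8e15f_co.H33

open Pool.Agent.MP_f8e15f_co.H24

theorem exn_ne {p d o : ℕ} (hp : p.Prime) (hd : 3 ≤ d) (h : ExN (p ^ d) o) : p = 3 ∧ d = 4 := by
  rcases h with ⟨q, hq, e, _⟩ | ⟨e, _⟩
  · exfalso
    have hq' : q.Prime := by
      simp only [List.mem_cons, List.not_mem_nil, or_false] at hq
      rcases hq with rfl | rfl | rfl | rfl | rfl <;> norm_num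
    have h1 : p = q := (Nat.prime_dvd_prime_iff_eq hp hq').1
      (hp.dvd_of_dvd_pow (e ▸ dvd_pow_self p (by omega)))
    subst h1
    have := Nat.pow_right_injective hp.two_le e
    omega
  · have h1 : p = 3 := (Nat.prime_dvd_prime_iff_eq hp Nat.prime_three).1
      (hp.dvd_of_dvd_pow (n := 4) (by rw [show 3 ^ 4 = 81 by norm_num, ← e]; exact dvd_pow_self p (by omega)))
    subst h1
    exact ⟨rfl, Nat.pow_right_injective (by norm_num : 2 ≤ 3) (e.trans (by norm_num))⟩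

theorem bilMain : OfBIL := by
  intro zs hup b0 irr b4 b5a b5b nuc g81 b3 b2t b2a b2s b2b b2c A X Y N _ _ _ _ _ _ _ _ _ _ _ _ β h
  obtain ⟨⟨p, d, e, f⟩, hin⟩ := b0 A X Y N β h
  have done : (e = 1 ∨ d ≤ 2 ∨ KI A X N) → BM β := fun c => irr A X Y N β h p d e f (hin p d e f c)
  by_cases hd : d ≤ 2
  · exact done (Or.inr (Or.inl hd))
  have hd3 : 3 ≤ d := by omega
  rcases lt_or_eq_of_le f.le with hlt | rfl
  · by_cases h64 : p = 2 ∧ d = 6
    · by_cases h3 : e = 3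
      · obtain ⟨rfl, rfl⟩ := h64
        subst h3
        by_cases hk : KI A X N
        · exact done (Or.inr (Or.inr hk))
        · exact b5b A X Y N β h f (b5a A X Y N β h f hk)
      · exact done (Or.inr (Or.inr (b4 A X Y N β h p d e f hlt (Or.inr ⟨h64.1, h64.2, h3⟩))))
    · exact done (Or.inr (Or.inr (b4 A X Y N β h p d e f hlt (Or.inl (zs p d f.prime hd3 h64)))))
  · have := h.nx
    have := h.ny
    have := h.nn
    have all : Semi A X ∧ Semi A Y ∧ Semi A N := by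
      obtain ⟨cxy, cxn, cyx, cyn, cnx, cny⟩ :=
        nuc A X Y N β h (f.cN.trans f.cX.symm) (f.cY.trans f.cX.symm)
      have hx := hup.hup A X h.tx
      have hy := hup.hup A Y h.ty
      have hn := hup.hup A N h.tn
      rw [f.cX] at hx
      rw [f.cY] at hy
      rw [f.cN] at hn
      by_cases h81 : p = 3 ∧ e = 4
      · obtain ⟨rfl, rfl⟩ := h81
        have c81 : (3 : ℕ) ^ 4 = 81 := by norm_num
        rcases hx with hx | hx <;> rcases hy with hy | hy <;> rcases hn with hn | hn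
        · exact ⟨hx, hy, hn⟩
        · exact (g81 A N X f.cX (hn.2 c81) hx cnx cxn).elim
        · exact (g81 A Y X f.cX (hy.2 c81) hx cyx cxy).elim
        · exact (g81 A Y X f.cX (hy.2 c81) hx cyx cxy).elim
        · exact (g81 A X Y f.cY (hx.2 c81) hy cxy cyx).elim
        · exact (g81 A X Y f.cY (hx.2 c81) hy cxy cyx).elim
        · exact (g81 A X N f.cN (hx.2 c81) hn cxn cnx).elim
        · exact (b3 A X Y N β h f cxy cxn cyx cnx (hx.2 c81) (hy.2 c81) (hn.2 c81)).elim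
      · exact ⟨hx.resolve_right fun c => h81 (exn_ne f.prime hd3 c.1),
          hy.resolve_right fun c => h81 (exn_ne f.prime hd3 c.1),
          hn.resolve_right fun c => h81 (exn_ne f.prime hd3 c.1)⟩
    obtain ⟨F, _, _, β', a, b, c, s₁, s₂, s₃, hF, ht, fin⟩ :=
      b2t A X Y N β h p e f all.1 all.2.1 all.2.2
    refine fin ?_
    by_cases h64 : p = 2 ∧ e = 6
    · obtain ⟨rfl, rfl⟩ := h64
      obtain ⟨H, hH⟩ := b2s A F β' a b c s₁ s₂ s₃ hF ht
      obtain ⟨σ, τ, σ', τ', k, k', hk⟩ := b2b H F β' _ _ _ _ hH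
      exact b2c H F β' _ _ _ _ hH σ τ σ' τ' k k' hk
    · obtain ⟨u, hu⟩ := zs p e f.prime hd3 h64
      rcases b2a A F β' a b c s₁ s₂ s₃ p e u f.prime (by omega) hF hu ht with h1 | ⟨rfl, rfl⟩
      · exact h1
      · obtain ⟨σ, τ, σ', τ', k, k', hk⟩ := b2b A F β' _ _ _ _ ht
        exact b2c A F β' _ _ _ _ ht σ τ σ' τ' k k' hk

/-- Translation designs. -/
theorem trMain (tr1 : TR1) (tr2 : TR2) (grid : GRID) (slpm : SLPM) (h24 : H24A) (net : NET) :
    AllT fun G _ _ _ _ 𝓜 => Tr G 𝓜 → Mod (trans 𝓜) := by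
  intro G V _ _ _ _ _ _ 𝓜 h
  have a : (∀ M ∈ 𝓜, ∀ M' ∈ 𝓜, M ≠ M' → M ⊓ M' = ⊥) → Mod (trans 𝓜) := fun hi => by
    by_cases h3 : 3 ≤ 𝓜.ncard
    · rcases net G V 𝓜 ⟨h, hi, h3⟩ with s | s
      · exact h24 G V 𝓜 h.toTrC s h3
      · exact slpm V 𝓜 s
    · exact slpm V 𝓜 (grid G V 𝓜 h hi (by omega))
  by_cases hv : ∃ v, ∀ M ∈ 𝓜, v ∉ M
  · exact a (tr1 G V 𝓜 h hv)
  · push Not at hv
    rcases tr2 G V 𝓜 h hv with hi | ⟨s, h3⟩
    · exact a hi
    · exact h24 G V 𝓜 h.toTrC s h3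

theorem Mod.of {V P : Type} (des : DES) {D : Set (Set V)} {E : Set (Set P)} (h : Iso D E)
    (hE : Mod E) : Mod D := by
  obtain ⟨Q, E', l, i⟩ := hE
  exact ⟨Q, E', l, des.trans _ _ _ _ _ _ h i⟩

theorem primMain (ds : DES) (aff : AFF) (blk : BLK) (cpl : CPL) (trb : TRB)
    (tr : AllT fun G _ _ _ _ 𝓜 => Tr G 𝓜 → Mod (trans 𝓜)) :
    AllC fun G P _ _ _ _ I => IsPreprimitive G P → Mod (des I) := by
  intro G P B _ _ _ _ _ _ _ I h hp
  obtain ⟨b⟩ := h.nB
  obtain ⟨x, y, hxy, _⟩ := h.tB b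
  have : Nontrivial P := ⟨x, y, hxy⟩
  obtain ⟨pp, N, hN, hne, hab, htr⟩ := aff G P hp h.fP
  by_cases hB : ∀ b c : B, ∃ n ∈ N, n • b = c
  · exact cpl G P B I h hp pp N hN hne hab hB
  · push Not at hB
    obtain ⟨H, V, _, _, _, _, _, _, 𝓜, t, i⟩ := trb G P B I h hp N hN hab htr
      ((blk G B P (flip I) h.flip).2 N hN hne hB)
    exact Mod.of ds i (tr H V 𝓜 t)

theorem coreMain (ds : DES) (blk : BLK) (s0 : STD0) (s1 : STD1) (s3 : STD3) (bl : BIL) (bmm : BMM)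
    (pr : AllC fun G P _ _ _ _ I => IsPreprimitive G P → Mod (des I)) :
    AllC fun _ _ _ _ _ _ I => Mod (des I) ∨ Mod (des (flip I)) := by
  intro G P B _ _ _ _ _ _ _ I h
  rcases (blk G P B I h).1 with h1 | h1
  · exact Or.inl (pr G P B I h h1)
  rcases (blk G B P (flip I) h.flip).1 with h2 | h2
  · exact Or.inr (pr G B P (flip I) h.flip h2)
  obtain ⟨R, C, _, _, _, _, π, κ, s⟩ := s0 G P B I h h1 h2
  obtain ⟨N, hN⟩ := s1 G P B I h R C π κ s
  obtain ⟨A, X, Y, Z, _, _, _, _, _, _, _, _, _, _, _, _, β, hb, i⟩ := s3 G P B I h R C π κ N s hN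
  exact Or.inl (Mod.of ds i (bmm X Y Z β (bl A X Y Z β hb)))

theorem listed (cvp : CVP) (c1 : CVS1) (c2 : CVS2) (ch : CVH) (cf : CVF) {P : Type}
    {E : Set (Set P)} (h : Listed P E) : Finite P ∧ Nonempty P ∧ Sol E := by
  have ne : ∀ (A : Type) [Finite A], (Nat.card A = 1 ∨ IsPrimePow (Nat.card A)) → Nonempty A :=
    fun A _ h => (Nat.card_pos_iff.1 (h.elim (fun e => by omega) fun e => e.pos)).1
  cases h with
  | part A B hA hB =>
    have := ne A hA
    have := ne B hB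
    exact ⟨inferInstance, inferInstance, cvp.1 A B hA hB⟩
  | compl A h => exact ⟨inferInstance, ne _ (Or.inr h), cvp.2 _ h⟩
  | slope F S h =>
    refine ⟨inferInstance, inferInstance, ?_⟩
    rcases h with rfl | ⟨h, rfl⟩ | ⟨h, rfl⟩ | ⟨h, rfl⟩ | ⟨h, rfl⟩
    exacts [(c1 F).1, (c1 F).2.1 h, (c2 F).1 h, (c2 F).2 h, (c1 F).2.2 h]
  | cyclo F n ρ c h hF hc => exact ⟨inferInstance, inferInstance, ch.1 _ n ρ c h hF hc⟩
  | peisert F γ hF h => exact ⟨inferInstance, inferInstance, ch.2 _ γ hF h⟩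
  | graph F U m h => exact ⟨inferInstance, inferInstance, cf F U m h⟩

theorem final (ds : DES) (abs : ABS) (part : PART)
    (core : AllC fun _ _ _ _ _ _ I => Mod (des I) ∨ Mod (des (flip I)))
    (cv : ∀ (P : Type) (E : Set (Set P)), Listed P E → Finite P ∧ Nonempty P ∧ Sol E)
    (V : Type) [Finite V] [Nonempty V] (D : Set (Set V)) :
    Sol D ↔ ∃ (P : Type) (E : Set (Set P)), Listed P E ∧ (Iso D E ∨ Iso D (dual E)) := by
  constructor
  · rintro ⟨k, r, hk, hr, h1, G, hG, hP⟩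
    rcases eq_or_lt_of_le hr with rfl | hr
    · obtain ⟨P, E, l, i⟩ := part V D k G hk h1 hG hP
      exact ⟨P, E, l, Or.inl i⟩
    · obtain ⟨_, c⟩ := abs V D k r G hk hr h1 hP
      rcases core G V D _ c with ⟨P, E, l, i⟩ | ⟨P, E, l, i⟩
      · rw [ds.mem] at i
        exact ⟨P, E, l, Or.inl i⟩
      · rw [ds.mem'] at i
        exact ⟨P, E, l, Or.inr (ds.bidual V P D E
          (fun p q h => c.eP p q fun b => h b.1 b.2) i)⟩
  · rintro ⟨P, E, l, i⟩
    obtain ⟨_, _, s⟩ := cv P E l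
    rcases i with i | i
    · exact ds.iso _ _ _ _ i s
    · exact ds.iso _ _ _ _ i (ds.dual P E s)

end Pool.Agent.MP_f8e15f_co.H33
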